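import Mathlib
import Pool.Agent.R350.GU
import Pool.Agent.R350.GV
import Pool.Agent.Y918.OL.Cube

/-!
# Sets of choice functions without nondegenerate boxes are exponentially small
-/

set_option autoImplicit false

namespace Pool.Agent.K7.H62.PA

open Module Finset
open Pool.Agent.Y918.OL (cube_count)

/-- the point of the box with the vertices `p` and `q i`, given by a set `S` of the coordinates -/
noncomputable def vertex {k N r : ℕ} (p : Fin k → Fin N) (q : Fin r → Fin k → Fin N)
    (S : Finset (Fin r)) (s : Fin k) : Fin N :=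
  open Classical in if h : ∃ i ∈ S, q i s ≠ p s then q h.choose s else p s

theorem vertex_eq {k N r : ℕ} {p : Fin k → Fin N} {q : Fin r → Fin k → Fin N}
    (hd : ∀ i j, i ≠ j → ∀ s, q i s = p s ∨ q j s = p s) {S : Finset (Fin r)} {i : Fin r}
    (hi : i ∈ S) {s : Fin k} (hs : q i s ≠ p s) : vertex p q S s = q i s := by
  have h : ∃ i ∈ S, q i s ≠ p s := ⟨i, hi, hs⟩
  unfold vertex
  rw [dif_pos h]
  by_contra hne
  have h1 : h.choose ≠ i := fun h2 => hne (by rw [h2])
  rcases hd _ _ h1 s with h2 | h2
  · exact h.choose_spec.2 h2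
  · exact hs h2

theorem vertex_eq' {k N r : ℕ} {p : Fin k → Fin N} {q : Fin r → Fin k → Fin N}
    {S : Finset (Fin r)} {s : Fin k} (hs : ∀ i ∈ S, q i s = p s) : vertex p q S s = p s := by
  unfold vertex
  rw [dif_neg]
  rintro ⟨i, hi, h⟩
  exact h (hs i hi)

theorem emb_inj {k N : ℕ} {f g : Fin k → Fin N}
    (h : (fun s => ((f s : ℕ) : ℚ)) = fun s => ((g s : ℕ) : ℚ)) : f = g := by
  funext s
  have h1 := congrFun h s
  exact Fin.ext (by exact_mod_cast h1)

/-- **Sets of choice functions without nondegenerate boxes are exponentially small.** -/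
theorem box_count (r : ℕ) : ∃ (k₀ C : ℕ) (δ : ℝ), 0 < δ ∧ 1 ≤ k₀ ∧ ∀ k ≥ k₀, ∀ (N : ℕ)
    (bad : (Fin k → Fin N) → Prop),
    (∀ (p : Fin k → Fin N) (q : Fin r → Fin k → Fin N), (∀ i, q i ≠ p) →
      (∀ i j, i ≠ j → ∀ s, q i s = p s ∨ q j s = p s) →
      ∃ S : Finset (Fin r), ¬ bad (vertex p q S)) →
    ∀ B : Finset (Fin k → Fin N), (∀ f ∈ B, bad f) →
    (B.card : ℝ) ≤ C * (N : ℝ) ^ ((k : ℝ) - δ * k) := by
  classical
  obtain ⟨k₀, C, δ, hδ, h⟩ := cube_count r
  refine ⟨max k₀ 1, C, δ, hδ, le_max_right _ _, fun k hk N bad hbad B hB => ?_⟩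
  have hk1 : 1 ≤ k := (le_max_right _ _).trans hk
  rcases Nat.eq_zero_or_pos N with hN | hN
  · subst hN
    have : B = ∅ := by
      rw [Finset.eq_empty_iff_forall_notMem]
      intro f _
      exact (f ⟨0, hk1⟩).elim0
    rw [this, Finset.card_empty, Nat.cast_zero]
    positivity
  have hNe : Nonempty (Fin N) := ⟨⟨0, hN⟩⟩
  let e : Fin N → ℚ := fun i => ((i : ℕ) : ℚ)
  have he : Function.Injective e := by
    intro i j hij
    exact Fin.ext (Nat.cast_injective (R := ℚ) hij)
  let em : (Fin k → Fin N) → (Fin k → ℚ) := fun f s => e (f s)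
  have hem : Function.Injective em := fun f g hfg => funext fun s => he (congrFun hfg s)
  obtain ⟨bad', hbad'⟩ : ∃ bad' : (Fin k → ℚ) → Prop, bad' = fun a => ∃ f, em f = a ∧ bad f :=
    ⟨_, rfl⟩
  have hA : ((univ : Finset (Fin N)).image e).card = N := by
    rw [Finset.card_image_of_injective _ he, Finset.card_univ, Fintype.card_fin]
  have h1 := h k ((le_max_left _ _).trans hk) ((univ : Finset (Fin N)).image e)
    (Finset.univ_nonempty.image e) bad' ?_
  · rw [hA] at h1
    refine le_trans (Nat.cast_le.2 ?_) h1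
    refine Finset.card_le_card_of_injOn em ?_ hem.injOn
    intro f hf
    rw [Finset.mem_coe, Finset.mem_filter]
    refine ⟨?_, ?_⟩
    · rw [Fintype.mem_piFinset]
      exact fun s => Finset.mem_image_of_mem _ (Finset.mem_univ _)
    · rw [hbad']
      exact ⟨f, rfl, hB f hf⟩
  · intro β u hu hd
    by_contra hcon
    push Not at hcon
    rw [hbad'] at hcon
    obtain ⟨p, hp, -⟩ := hcon ∅
    rw [Finset.sum_empty, add_zero] at hp
    have hq : ∀ i, ∃ f, em f = β + u i := by
      intro i
      obtain ⟨f, hf, -⟩ := hcon {i}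
      rw [Finset.sum_singleton] at hf
      exact ⟨f, hf⟩
    choose q hq using hq
    have hqs : ∀ i s, e (q i s) = e (p s) + u i s := by
      intro i s
      have h2 := congrFun (hq i) s
      rw [Pi.add_apply, ← hp] at h2
      exact h2
    have hqp : ∀ i s, q i s = p s ↔ u i s = 0 := by
      intro i s
      have h2 := hqs i s
      constructor
      · intro h3
        rw [h3] at h2
        linarith
      · intro h3
        rw [h3, add_zero] at h2
        exact he h2
    obtain ⟨S, hS⟩ := hbad p q (by
      intro i hi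
      apply hu i
      funext s
      exact (hqp i s).1 (congrFun hi s)) (by
      intro i j hij s
      rcases hd i j hij s with h2 | h2
      · exact Or.inl ((hqp i s).2 h2)
      · exact Or.inr ((hqp j s).2 h2))
    apply hS
    obtain ⟨f, hf, hfb⟩ := hcon S
    have h3 : vertex p q S = f := by
      apply hem
      rw [hf]
      funext s
      rw [Pi.add_apply, Finset.sum_apply]
      have hps : β s = e (p s) := (congrFun hp s).symm
      rw [hps]
      by_cases h4 : ∃ i ∈ S, q i s ≠ p s
      · obtain ⟨i, hi, his⟩ := h4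
        have hdq : ∀ i j, i ≠ j → ∀ s, q i s = p s ∨ q j s = p s := by
          intro i j hij s
          rcases hd i j hij s with h2 | h2
          · exact Or.inl ((hqp i s).2 h2)
          · exact Or.inr ((hqp j s).2 h2)
        change e (vertex p q S s) = _
        rw [vertex_eq hdq hi his, hqs, Finset.sum_eq_single_of_mem i hi]
        intro j _ hj
        rcases hdq i j hj.symm s with h5 | h5
        · exact absurd h5 his
        · exact (hqp j s).1 h5
      · push Not at h4
        change e (vertex p q S s) = _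
        rw [vertex_eq' h4, Finset.sum_eq_zero, add_zero]
        intro i hi
        exact (hqp i s).1 (h4 i hi)
    rw [h3]
    exact hfb

/-- The differences of different members of the lists `w s` are linearly independent. -/
def DI (κ : Type) {A : Type} [Field κ] [Field A] [Algebra κ A] {k N : ℕ}
    (w : Fin k → Fin N → A) : Prop :=
  ∀ (p q : Fin k → Fin N) (c : Fin k → κ), ∑ s, c s • (w s (q s) - w s (p s)) = 0 →
    ∀ s, q s ≠ p s → c s = 0

/-- the value of a choice function -/
def csum {A : Type} [Field A] {k N : ℕ} (w : Fin k → Fin N → A) (f : Fin k → Fin N) : A :=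
  ∑ s, w s (f s)

theorem csum_vertex {A : Type} [Field A] {k N r : ℕ} (w : Fin k → Fin N → A) {p : Fin k → Fin N}
    {q : Fin r → Fin k → Fin N} (hd : ∀ i j, i ≠ j → ∀ s, q i s = p s ∨ q j s = p s)
    (S : Finset (Fin r)) :
    csum w (vertex p q S) = csum w p + ∑ i ∈ S, (csum w (q i) - csum w p) := by
  unfold csum
  have h1 : ∀ s, w s (vertex p q S s) = w s (p s) + ∑ i ∈ S, (w s (q i s) - w s (p s)) := by
    intro s
    by_cases h4 : ∃ i ∈ S, q i s ≠ p s
    · obtain ⟨i, hi, his⟩ := h4
      rw [vertex_eq hd hi his, Finset.sum_eq_single_of_mem i hi]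
      · ring
      · intro j _ hj
        rcases hd i j hj.symm s with h5 | h5
        · exact absurd h5 his
        · rw [h5, sub_self]
    · push Not at h4
      rw [vertex_eq' h4, Finset.sum_eq_zero, add_zero]
      intro i hi
      rw [h4 i hi, sub_self]
  simp only [h1]
  rw [Finset.sum_add_distrib, Finset.sum_comm]
  congr 1
  refine Finset.sum_congr rfl fun i _ => ?_
  rw [Finset.sum_sub_distrib]

theorem DI.dirs {κ A : Type} [Field κ] [Field A] [Algebra κ A] {k N r : ℕ}
    {w : Fin k → Fin N → A} (hw : DI κ w) {p : Fin k → Fin N}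
    {q : Fin r → Fin k → Fin N} (hq : ∀ i, q i ≠ p)
    (hd : ∀ i j, i ≠ j → ∀ s, q i s = p s ∨ q j s = p s) :
    LinearIndependent κ (fun i => csum w (q i) - csum w p) := by
  classical
  rw [Fintype.linearIndependent_iff]
  intro c hc i
  obtain ⟨s, hs⟩ : ∃ s, q i s ≠ p s := by
    by_contra hcon
    push Not at hcon
    exact hq i (funext hcon)
  have h1 := hw p (vertex p q univ) (fun s => ∑ j, if q j s ≠ p s then c j else 0) (by
    rw [← hc]
    unfold csum
    simp only [Finset.sum_smul, ← Finset.sum_sub_distrib, Finset.smul_sum]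
    rw [Finset.sum_comm]
    refine Finset.sum_congr rfl fun j _ => Finset.sum_congr rfl fun s _ => ?_
    by_cases h2 : q j s = p s
    · rw [if_neg (fun h => h h2), h2, sub_self, smul_zero, zero_smul]
    · rw [if_pos h2, vertex_eq hd (Finset.mem_univ j) h2]) s (by
    rw [vertex_eq hd (Finset.mem_univ i) hs]
    exact hs)
  rw [Finset.sum_eq_single i, if_pos hs] at h1
  · exact h1
  · intro j _ hj
    rcases hd i j hj.symm s with h5 | h5
    · exact absurd h5 hs
    · rw [if_neg (fun h => h h5)]
  · intro h; exact absurd (Finset.mem_univ _) h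

end Pool.Agent.K7.H62.PA
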