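import Mathlib
import Pool.Agent.K7.H62.PA.Box

/-!
# Sums with one term from each of many lists

Tuples of such sums are generic with exponentially few exceptions.
-/

set_option autoImplicit false

namespace Pool.Agent.K7.H62.PA

open Module Finset
open Pool.Agent.R350

theorem comb_bound {a : ℝ} (ha1 : 1 ≤ a) (C₁ C₂ : ℕ) (δ₁ δ₂ : ℝ) (k n : ℕ) :
    C₁ * a ^ ((k : ℝ) - δ₁ * k) * (a ^ k) ^ n + a ^ k * (C₂ * a ^ ((n * k : ℝ) - δ₂ * k)) ≤
      ((C₁ + C₂ : ℕ) : ℝ) * a ^ (((n + 1 : ℕ) * k : ℝ) - min δ₁ δ₂ * k) := by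
  have ha0 : 0 < a := by linarith
  have hk0 : (0 : ℝ) ≤ k := Nat.cast_nonneg _
  have e1 : (a ^ k) ^ n = a ^ (n * k : ℝ) := by
    rw [← pow_mul, ← Real.rpow_natCast]
    congr 1
    push_cast
    ring
  have e2 : a ^ k = a ^ (k : ℝ) := (Real.rpow_natCast a k).symm
  rw [e1, e2]
  have h3 : C₁ * a ^ ((k : ℝ) - δ₁ * k) * a ^ (n * k : ℝ) ≤
      C₁ * a ^ (((n + 1 : ℕ) * k : ℝ) - min δ₁ δ₂ * k) := by
    rw [mul_assoc, ← Real.rpow_add ha0]
    apply mul_le_mul_of_nonneg_left _ (Nat.cast_nonneg _)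
    apply Real.rpow_le_rpow_of_exponent_le ha1
    have := mul_le_mul_of_nonneg_right (min_le_left δ₁ δ₂) hk0
    push_cast
    linarith
  have h4 : a ^ (k : ℝ) * (C₂ * a ^ ((n * k : ℝ) - δ₂ * k)) ≤
      C₂ * a ^ (((n + 1 : ℕ) * k : ℝ) - min δ₁ δ₂ * k) := by
    rw [mul_left_comm, ← Real.rpow_add ha0]
    apply mul_le_mul_of_nonneg_left _ (Nat.cast_nonneg _)
    apply Real.rpow_le_rpow_of_exponent_le ha1
    have := mul_le_mul_of_nonneg_right (min_le_right δ₁ δ₂) hk0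
    push_cast
    linarith
  push_cast at h3 h4 ⊢
  linarith

/-- Counting tuples of choice functions by their first entry. -/
theorem count_box (N q n : ℕ) (hq : 1 ≤ q) (C₁ C₂ : ℕ) (δ₁ δ₂ : ℝ)
    (bad : (Fin (n + 1) → Fin q → Fin N) → Prop) (H : Finset (Fin q → Fin N))
    (hH : (H.card : ℝ) ≤ C₁ * (N : ℝ) ^ ((q : ℝ) - δ₁ * q))
    (h : ∀ p ∉ H, ∀ B' : Finset (Fin n → Fin q → Fin N), (∀ f ∈ B', bad (Fin.cons p f)) →
      (B'.card : ℝ) ≤ C₂ * (N : ℝ) ^ ((n * q : ℝ) - δ₂ * q))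
    (B : Finset (Fin (n + 1) → Fin q → Fin N)) (hB : ∀ f ∈ B, bad f) :
    (B.card : ℝ) ≤ ((C₁ + C₂ : ℕ) : ℝ) * (N : ℝ) ^ (((n + 1 : ℕ) * q : ℝ) - min δ₁ δ₂ * q) := by
  classical
  rcases Nat.eq_zero_or_pos N with hN | hN
  · subst hN
    have : B = ∅ := by
      rw [Finset.eq_empty_iff_forall_notMem]
      intro f _
      exact (f 0 ⟨0, hq⟩).elim0
    rw [this, Finset.card_empty, Nat.cast_zero]
    positivity
  have hN1 : (1 : ℝ) ≤ N := by exact_mod_cast hN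
  have h3 := count_first n bad H _ _ hH (by positivity) h B hB
  rw [Fintype.card_fun, Fintype.card_fin, Fintype.card_fin] at h3
  push_cast at h3
  exact h3.trans (comb_bound hN1 C₁ C₂ δ₁ δ₂ q n)

theorem csum_mem {k A : Type} [Field k] [Field A] [Algebra k A]
    (L : Submodule k A) {m N : ℕ} (w : Fin m → Fin N → A) (hw : ∀ s i, w s i ∈ L)
    (f : Fin m → Fin N) : csum w f ∈ L :=
  Submodule.sum_mem _ fun s _ => hw s (f s)

theorem cons_csum {A : Type} [Field A] {n q N : ℕ} (z : Fin (n + 1) → A)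
    (w : Fin (n + 1) → Fin q → Fin N → A) (p : Fin q → Fin N) (P : Fin n → Fin q → Fin N) :
    (fun a => z a + csum (w a) ((Fin.cons p P : Fin (n + 1) → Fin q → Fin N) a)) =
      (Fin.cons (z 0 + csum (w 0) p) (fun a => z a.succ + csum (w a.succ) (P a)) :
        Fin (n + 1) → A) := by
  funext i
  refine Fin.cases ?_ (fun i => ?_) i
  · rw [Fin.cons_zero, Fin.cons_zero]
  · rw [Fin.cons_succ, Fin.cons_succ]

/-- One sum. -/
theorem box_one (D m v : ℕ) : ∃ (k₀ C : ℕ) (δ : ℝ), 0 < δ ∧ 1 ≤ k₀ ∧ ∀ q ≥ k₀,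
    ∀ (k A : Type) [Field k]
    [CharZero k] [Field A] [Algebra k A] (L Ω F : Submodule k A), FiniteDimensional k Ω →
    FiniteDimensional k F → HypV v L → (1 : A) ∈ L → (1 : A) ∈ Ω → finrank k Ω ≤ m →
    finrank k F ≤ m → ∀ z ∈ L, ∀ (N : ℕ) (w : Fin q → Fin N → A), (∀ s i, w s i ∈ L) → DI k w →
    ∀ B : Finset (Fin q → Fin N), (∀ f ∈ B, z + csum w f ∈ F ∨ ¬ GD D L Ω (z + csum w f)) →
    (B.card : ℝ) ≤ C * (N : ℝ) ^ ((q : ℝ) - δ * q) := by
  classical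
  obtain ⟨R, hR⟩ := PD_all D m v
  obtain ⟨k₀, C, δ, hδ, hk₀, h⟩ := box_count R
  refine ⟨k₀, C, δ, hδ, hk₀, fun q hq k A _ _ _ _ L Ω F h1 h2 h3 h4 h5 h6 h7 z hz N w hw hDI B
    hB => ?_⟩
  refine h q hq N (fun f => z + csum w f ∈ F ∨ ¬ GD D L Ω (z + csum w f)) ?_ B hB
  intro p u hu hd
  obtain ⟨S, -, hS1, hS2⟩ := hR k A L Ω F h1 h2 h3 h4 h5 h6 h7 (z + csum w p)
    (L.add_mem hz (csum_mem L w hw p)) (fun i => csum w (u i) - csum w p)
    (fun i => L.sub_mem (csum_mem L w hw (u i)) (csum_mem L w hw p)) (hDI.dirs hu hd)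
  refine ⟨S, ?_⟩
  rw [csum_vertex w hd, ← add_assoc]
  rintro (h8 | h8)
  · exact hS1 h8
  · exact h8 hS2

/-- **Tuples of sums are free.** -/
theorem box_free (D n : ℕ) : ∀ m v : ℕ, ∃ (k₀ C : ℕ) (δ : ℝ), 0 < δ ∧ 1 ≤ k₀ ∧ ∀ q ≥ k₀,
    ∀ (k A : Type) [Field k]
    [CharZero k] [Field A] [Algebra k A] (L E : Submodule k A), FiniteDimensional k E →
    HypV v L → (1 : A) ∈ L → (1 : A) ∈ E → finrank k E ≤ m →
    ∀ z : Fin n → A, (∀ a, z a ∈ L) → ∀ (N : ℕ) (w : Fin n → Fin q → Fin N → A),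
    (∀ a s i, w a s i ∈ L) → (∀ a, DI k (w a)) →
    ∀ B : Finset (Fin n → Fin q → Fin N),
    (∀ P ∈ B, ¬ FreeT D L E (fun a => z a + csum (w a) (P a))) →
    (B.card : ℝ) ≤ C * (N : ℝ) ^ ((n * q : ℝ) - δ * q) := by
  classical
  induction n with
  | zero =>
    intro m v
    refine ⟨1, 0, 1, one_pos, le_rfl, fun q _ k A _ _ _ _ L E _ _ _ _ _ z _ N w _ _ B hB => ?_⟩
    have : B = ∅ := by
      rw [Finset.eq_empty_iff_forall_notMem]
      intro a ha
      exact hB a ha (FreeT.nil D L E _)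
    rw [this]
    simp
  | succ n ih =>
    intro m v
    obtain ⟨k₁, C₁, δ₁, hδ₁, hk₁, h₁⟩ := box_one D (m + (m * (m + v) * m + m)) v
    obtain ⟨k₂, C₂, δ₂, hδ₂, hk₂, h₂⟩ := ih ((D + 1) * m) v
    refine ⟨max k₁ k₂, C₁ + C₂, min δ₁ δ₂, lt_min hδ₁ hδ₂, hk₁.trans (le_max_left _ _),
      fun q hq k A _ _ _ _ L E hE hL h1L h1 hm z hz N w hw hDI B hB => ?_⟩
    have hq1 : k₁ ≤ q := (le_max_left _ _).trans hq
    have hq2 : k₂ ≤ q := (le_max_right _ _).trans hq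
    obtain ⟨hf, hfr⟩ := suppI_bound hL E
    have hF : FiniteDimensional k (suppI L E ⊔ E : Submodule k A) := inferInstance
    have hFr : finrank k (suppI L E ⊔ E : Submodule k A) ≤ m + (m * (m + v) * m + m) := by
      refine (Submodule.finrank_add_le_finrank_add_finrank _ _).trans ?_
      have : finrank k (suppI L E) ≤ m * (m + v) * m := hfr.trans (by gcongr)
      omega
    refine count_box N q n (hk₁.trans hq1) C₁ C₂ δ₁ δ₂
      (fun P => ¬ FreeT D L E (fun a => z a + csum (w a) (P a)))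
      (univ.filter fun f : Fin q → Fin N =>
        z 0 + csum (w 0) f ∈ (suppI L E ⊔ E : Submodule k A) ∨
        ¬ GD D L E (z 0 + csum (w 0) f))
      (h₁ q hq1 k A L E (suppI L E ⊔ E) hE hF hL h1L h1 (by omega) hFr
        (z 0) (hz 0) N (w 0) (hw 0) (hDI 0) _ (fun P hP => (Finset.mem_filter.1 hP).2)) ?_ B hB
    intro p hp B' hB'
    have hp' : ¬ (z 0 + csum (w 0) p ∈ (suppI L E ⊔ E : Submodule k A) ∨
      ¬ GD D L E (z 0 + csum (w 0) p)) := fun h => hp (Finset.mem_filter.2 ⟨Finset.mem_univ _, h⟩)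
    push Not at hp'
    have hyL : z 0 + csum (w 0) p ∈ L := L.add_mem (hz 0) (csum_mem L _ (hw 0) p)
    obtain ⟨hpf, hpr⟩ := polyU_bound (z 0 + csum (w 0) p) E (D + 1)
    refine h₂ q hq2 k A L (polyU (z 0 + csum (w 0) p) E (D + 1)) hpf hL
        h1L (by
          have := pow_mul_mem_polyU (z 0 + csum (w 0) p) E (l := 0) (n := D + 1)
            (by omega) h1
          rwa [pow_zero, one_mul] at this) (hpr.trans (by gcongr)) (fun a => z a.succ)
        (fun a => hz _) N (fun a => w a.succ) (fun a => hw _) (fun a => hDI _) B' ?_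
    intro P hP hfree
    apply hB' P hP
    rw [cons_csum]
    exact FreeT.cons h1L hyL (fun i => L.add_mem (hz _) (csum_mem L _ (hw _) _)) h1 hp'.2 hp'.1
      hfree

theorem rpow_min_le {x : ℝ} (hx : 1 ≤ x) (y δ₁ δ₂ : ℝ) (q : ℕ) :
    x ^ (y - δ₁ * q) ≤ x ^ (y - min δ₁ δ₂ * q) ∧ x ^ (y - δ₂ * q) ≤ x ^ (y - min δ₁ δ₂ * q) := by
  have hk0 : (0 : ℝ) ≤ q := Nat.cast_nonneg _
  refine ⟨?_, ?_⟩
  · apply Real.rpow_le_rpow_of_exponent_le hx
    have := mul_le_mul_of_nonneg_right (min_le_left δ₁ δ₂) hk0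
    linarith
  · apply Real.rpow_le_rpow_of_exponent_le hx
    have := mul_le_mul_of_nonneg_right (min_le_right δ₁ δ₂) hk0
    linarith

/-- **Tuples of sums have no relation with coefficients in `W` which is linear in arbitrary
elements of `L`.** -/
theorem box_lin (D n m v : ℕ) : ∃ (k₀ C : ℕ) (δ : ℝ), 0 < δ ∧ 1 ≤ k₀ ∧ ∀ q ≥ k₀,
    ∀ (κ A : Type) [Field κ] [CharZero κ] [Field A] [Algebra κ A] (L : Submodule κ A),
    HypV v L → (1 : A) ∈ L → ∀ W : Submodule κ A, Module.Finite κ W → finrank κ W ≤ m →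
    ∀ z : Fin n → A, (∀ a, z a ∈ L) → ∀ (N : ℕ) (w : Fin n → Fin q → Fin N → A),
    (∀ a s i, w a s i ∈ L) → (∀ a, DI κ (w a)) →
    ∀ B : Finset (Fin n → Fin q → Fin N),
    (∀ P ∈ B, ¬ NoRel' L W (exSp L W) D (fun a => z a + csum (w a) (P a))) →
    (B.card : ℝ) ≤ C * (N : ℝ) ^ ((n * q : ℝ) - δ * q) := by
  classical
  obtain ⟨k₁, C₁, δ₁, hδ₁, hk₁, h₁⟩ := box_free D n (m + 1) v
  obtain ⟨k₂, C₂, δ₂, hδ₂, hk₂, h₂⟩ := box_free (0 + 1) n
    ((m + 1) * (m + 1 + v) * (m + 1) + 1) v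
  refine ⟨max k₁ k₂, C₁ + C₂, min δ₁ δ₂, lt_min hδ₁ hδ₂, hk₁.trans (le_max_left _ _),
    fun q hq κ A _ _ _ _ L hL h1L W hW hWm z hz N w hw hDI B hB => ?_⟩
  have hE : FiniteDimensional κ (W ⊔ Submodule.span κ {(1 : A)} : Submodule κ A) := inferInstance
  have hEr : finrank κ (W ⊔ Submodule.span κ {(1 : A)} : Submodule κ A) ≤ m + 1 :=
    (Submodule.finrank_add_le_finrank_add_finrank _ _).trans
      (Nat.add_le_add hWm (finrank_span_one κ A))
  have h1E : (1 : A) ∈ W ⊔ Submodule.span κ {(1 : A)} :=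
    Submodule.mem_sup_right (Submodule.mem_span_singleton_self _)
  have h1F : (1 : A) ∈ exSp L W := Submodule.mem_sup_right (Submodule.mem_span_singleton_self _)
  obtain ⟨hF, hFr, -, -⟩ := exSp_bound hL h1L W hWm
  have hq1 : k₁ ≤ q := (le_max_left _ _).trans hq
  have hq2 : k₂ ≤ q := (le_max_right _ _).trans hq
  rcases Nat.eq_zero_or_pos N with hN | hN
  · subst hN
    rcases Nat.eq_zero_or_pos n with hn | hn
    · subst hn
      have : B = ∅ := by
        rw [Finset.eq_empty_iff_forall_notMem]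
        intro f hf
        refine hB f hf (noRel_of_free (D' := 0) h1L (fun i => i.elim0) (FreeT.nil _ _ _ _)
          (FreeT.nil _ _ _ _))
      rw [this, Finset.card_empty, Nat.cast_zero]
      positivity
    · have : B = ∅ := by
        rw [Finset.eq_empty_iff_forall_notMem]
        intro f _
        exact (f ⟨0, hn⟩ ⟨0, hk₁.trans hq1⟩).elim0
      rw [this, Finset.card_empty, Nat.cast_zero]
      positivity
  have hX1 : (1 : ℝ) ≤ N := by exact_mod_cast hN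
  set B₁ := B.filter fun P => ¬ FreeT D L (W ⊔ Submodule.span κ {(1 : A)})
    (fun a => z a + csum (w a) (P a)) with hB₁
  set B₂ := B.filter fun P => ¬ FreeT (0 + 1) L (exSp L W)
    (fun a => z a + csum (w a) (P a)) with hB₂
  have h3 := h₁ q hq1 κ A L _ hE hL h1L h1E hEr z hz N w hw hDI B₁
    (fun P hP => (Finset.mem_filter.1 hP).2)
  have h4 := h₂ q hq2 κ A L _ hF hL h1L h1F hFr z hz N w hw hDI B₂
    (fun P hP => (Finset.mem_filter.1 hP).2)
  have hsplit : B ⊆ B₁ ∪ B₂ := by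
    intro P hP
    rw [hB₁, hB₂, Finset.mem_union, Finset.mem_filter, Finset.mem_filter]
    by_contra hno
    push Not at hno
    exact hB P hP (noRel_of_free h1L (fun i => L.add_mem (hz i) (csum_mem L _ (hw i) _))
      (hno.1 hP) (hno.2 hP))
  have h5 := (Nat.cast_le (α := ℝ)).2 ((Finset.card_le_card hsplit).trans
    (Finset.card_union_le _ _))
  rw [Nat.cast_add] at h5
  obtain ⟨e1, e2⟩ := rpow_min_le hX1 (n * q : ℝ) δ₁ δ₂ q
  have e3 := mul_le_mul_of_nonneg_left e1 (Nat.cast_nonneg (α := ℝ) C₁)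
  have e4 := mul_le_mul_of_nonneg_left e2 (Nat.cast_nonneg (α := ℝ) C₂)
  push_cast
  rw [add_mul]
  linarith

/-- **The density theorem with spaces which depend on the preceding values.** -/
theorem box_chain (D m v n : ℕ) : ∃ (k₀ C : ℕ) (δ : ℝ), 0 < δ ∧ 1 ≤ k₀ ∧ ∀ q ≥ k₀,
    ∀ (κ A : Type) [Field κ] [CharZero κ] [Field A] [Algebra κ A] (L : Submodule κ A),
    HypV v L → (1 : A) ∈ L → ∀ Ω F : Fin n → (Fin n → A) → Submodule κ A, PredC m Ω → PredC m F →
    (∀ j y, (1 : A) ∈ Ω j y) →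
    ∀ z : Fin n → A, (∀ a, z a ∈ L) → ∀ (N : ℕ) (w : Fin n → Fin q → Fin N → A),
    (∀ a s i, w a s i ∈ L) → (∀ a, DI κ (w a)) →
    ∀ B : Finset (Fin n → Fin q → Fin N),
    (∀ f ∈ B, ∃ j, z j + csum (w j) (f j) ∈ F j (fun a => z a + csum (w a) (f a)) ∨
      ¬ GD D L (Ω j (fun a => z a + csum (w a) (f a))) (z j + csum (w j) (f j))) →
    (B.card : ℝ) ≤ C * (N : ℝ) ^ ((n * q : ℝ) - δ * q) := by
  classical
  induction n with
  | zero =>
    refine ⟨1, 0, 1, one_pos, le_rfl, fun q _ κ A _ _ _ _ L _ _ Ω F _ _ _ z _ N w _ _ B hB => ?_⟩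
    have : B = ∅ := by
      rw [Finset.eq_empty_iff_forall_notMem]
      intro a ha
      obtain ⟨j, -⟩ := hB a ha
      exact j.elim0
    rw [this]
    simp
  | succ n ih =>
    obtain ⟨k₁, C₁, δ₁, hδ₁, hk₁, h₁⟩ := box_one D m v
    obtain ⟨k₂, C₂, δ₂, hδ₂, hk₂, h₂⟩ := ih
    refine ⟨max k₁ k₂, C₁ + C₂, min δ₁ δ₂, lt_min hδ₁ hδ₂, hk₁.trans (le_max_left _ _),
      fun q hq κ A _ _ _ _ L hL h1L Ω F hΩ hF h1Ω z hz N w hw hDI B hB => ?_⟩
    have hq1 : k₁ ≤ q := (le_max_left _ _).trans hq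
    have hq2 : k₂ ≤ q := (le_max_right _ _).trans hq
    have d0 : ∀ y : Fin (n + 1) → A, Ω 0 y = Ω 0 (fun _ => 0) := fun y =>
      hΩ.dep _ _ _ (fun i hi => absurd hi (Fin.not_lt_zero i))
    have d1 : ∀ y : Fin (n + 1) → A, F 0 y = F 0 (fun _ => 0) := fun y =>
      hF.dep _ _ _ (fun i hi => absurd hi (Fin.not_lt_zero i))
    refine count_box N q n (hk₁.trans hq1) C₁ C₂ δ₁ δ₂
      (fun f => ∃ j, z j + csum (w j) (f j) ∈ F j (fun a => z a + csum (w a) (f a)) ∨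
        ¬ GD D L (Ω j (fun a => z a + csum (w a) (f a))) (z j + csum (w j) (f j)))
      (univ.filter fun f : Fin q → Fin N =>
        z 0 + csum (w 0) f ∈ F 0 (fun _ => 0) ∨
        ¬ GD D L (Ω 0 (fun _ => 0)) (z 0 + csum (w 0) f))
      (h₁ q hq1 κ A L (Ω 0 (fun _ => 0)) (F 0 (fun _ => 0)) (hΩ.fin _ _) (hF.fin _ _) hL h1L
        (h1Ω _ _) (hΩ.le _ _) (hF.le _ _)
        (z 0) (hz 0) N (w 0) (hw 0) (hDI 0) _ (fun P hP => (Finset.mem_filter.1 hP).2)) ?_ B hB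
    intro p hp B' hB'
    have hp' : ¬ (z 0 + csum (w 0) p ∈ F 0 (fun _ => 0) ∨
      ¬ GD D L (Ω 0 (fun _ => 0)) (z 0 + csum (w 0) p)) :=
        fun h => hp (Finset.mem_filter.2 ⟨Finset.mem_univ _, h⟩)
    refine h₂ q hq2 κ A L hL h1L _ _ (hΩ.tail (z 0 + csum (w 0) p))
      (hF.tail (z 0 + csum (w 0) p)) (fun j y => h1Ω _ _) (fun a => z a.succ)
      (fun a => hz _) N (fun a => w a.succ) (fun a => hw _) (fun a => hDI _) B' ?_
    intro f hf
    obtain ⟨j, hj⟩ := hB' f hf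
    rw [cons_csum] at hj
    revert hj
    refine Fin.cases ?_ (fun j' => ?_) j
    · intro hj
      exfalso
      apply hp'
      rwa [Fin.cons_zero, d0, d1] at hj
    · intro hj
      refine ⟨j', ?_⟩
      rwa [Fin.cons_succ] at hj

/-- **Matrices with a row of sums.** -/
theorem box_two (k m v : ℕ) : ∃ (k₀ C₀ : ℕ) (δ : ℝ), 0 < δ ∧ 1 ≤ k₀ ∧ ∀ q ≥ k₀,
    ∀ (K κ C : Type) [Field K] [Field κ] [CharZero κ] [Field C]
    [Algebra K C] [Algebra κ C] [Algebra K κ] [IsScalarTower K κ C]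
    (L : Submodule κ C), HypV v L → (1 : C) ∈ L → ∀ V : Submodule K C, Module.Finite K V →
    finrank K V ≤ m → ∀ z : Fin k → C, (∀ a, z a ∈ L) →
    ∀ (N : ℕ) (w : Fin k → Fin q → Fin N → C), (∀ a s i, w a s i ∈ L) → (∀ a, DI κ (w a)) →
    ∀ B : Finset (Fin k → Fin q → Fin N),
    (∀ f ∈ B, ¬ Good2f V L (fun a => z a + csum (w a) (f a))) →
    (B.card : ℝ) ≤ C₀ * (N : ℝ) ^ ((k * q : ℝ) - δ * q) := by
  classical
  obtain ⟨M, hM⟩ : ∃ M, M = m + k + 1 := ⟨_, rfl⟩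
  obtain ⟨k₀, C₀, δ, hδ, hk₀, h⟩ := box_chain (0 + 1) (M * (M + (v + m)) * M + M) (v + m) k
  refine ⟨k₀, C₀, δ, hδ, hk₀, fun q hq K κ C _ _ _ _ _ _ _ _ L hL h1L V hVf hVm z hz N w hw hDI B
    hbad => ?_⟩
  have hspan := spanK_finite (κ := κ) V
  have hyp := hL.sup (Submodule.span κ (V : Set C)) ((finrank_spanK_le V).trans hVm)
  have hfinH : ∀ (j : Fin k) (y : Fin k → C), Module.Finite κ (hullSp κ (stage V y j)) := by
    intro j y
    have := stage_finite V y j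
    exact hullSp_finite _
  have hrankH : ∀ (j : Fin k) (y : Fin k → C), finrank κ (hullSp κ (stage V y j)) ≤ M := by
    intro j y
    have := stage_finite V y j
    have h1 := finrank_hullSp_le (κ := κ) (stage V y j)
    have h2 := finrank_stage_le V y j
    omega
  refine h q hq κ C (L ⊔ Submodule.span κ (V : Set C)) hyp (Submodule.mem_sup_left h1L)
    (fun j y => hullSp κ (stage V y j))
    (fun j y => suppSp (v + m) (L ⊔ Submodule.span κ (V : Set C)) (hullSp κ (stage V y j)) ⊔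
      hullSp κ (stage V y j)) ?_ ?_ (fun j y => one_mem_hullSp _) z
    (fun a => Submodule.mem_sup_left (hz a)) N w
    (fun a j i => Submodule.mem_sup_left (hw a j i)) hDI B ?_
  · refine ⟨fun j y y' hy => ?_, hfinH, fun j y => (hrankH j y).trans (by omega)⟩
    rw [stage_congr V (f := y) (g := y') j (fun i hi => hy i hi)]
  · refine ⟨fun j y y' hy => ?_, fun j y => ?_, fun j y => ?_⟩
    · rw [stage_congr V (f := y) (g := y') j (fun i hi => hy i hi)]
    · have h1 := hfinH j y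
      have h2 := (suppSp_spec hyp (hullSp κ (stage V y j))).1
      infer_instance
    · have h1 := hfinH j y
      have h2 := (suppSp_spec hyp (hullSp κ (stage V y j))).1
      have h3 := (suppSp_spec hyp (hullSp κ (stage V y j))).2.1
      have h4 := hrankH j y
      refine (Submodule.finrank_add_le_finrank_add_finrank _ _).trans ?_
      refine Nat.add_le_add (h3.trans ?_) h4
      gcongr
  · intro f hfB
    by_contra hno
    push Not at hno
    apply hbad f hfB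
    refine good2f_of V hyp _ (fun i => Submodule.mem_sup_left (L.add_mem (hz i)
      (csum_mem L _ (hw i) _))) (fun j => (hno j).1) (fun j => ?_)
    have := hfinH j (fun a => z a + csum (w a) (f a))
    exact GD.not_exc (one_mem_hullSp _) (hno j).2

end Pool.Agent.K7.H62.PA
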