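import Mathlib
import Pool.Agent.K7.H62.PA.Rnd
import Pool.Agent.R350.Inst

/-!
# Lists of logarithms
-/

set_option autoImplicit false

namespace Pool.Agent.K7.H62.PA

open Module Finset
open Pool.Agent.W245.PB (IsIwasawaLog QbarP)

theorem DI_of_li {κ A : Type} [Field κ] [Field A] [Algebra κ A] {k N : ℕ} (w : Fin k → Fin N → A)
    (h : ∀ p q : Fin k → Fin N,
      LinearIndependent κ (fun s : {s // q s ≠ p s} => w s.1 (q s.1) - w s.1 (p s.1))) :
    DI κ w := by
  classical
  intro p q c hc s hs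
  have h1 := Fintype.linearIndependent_iff.1 (h p q) (fun s => c s.1) (by
    rw [← hc, ← Finset.sum_filter_add_sum_filter_not univ (fun s => q s ≠ p s)]
    rw [Finset.sum_eq_zero (s := univ.filter fun s => ¬ q s ≠ p s), add_zero]
    · symm
      exact Finset.sum_subtype _ (fun s => by simp) _
    · intro s hs
      have h2 := (Finset.mem_filter.1 hs).2
      push Not at h2
      rw [h2, sub_self, smul_zero]) ⟨s, hs⟩
  exact h1

/-- lists of `p`-adic logarithms of algebraic numbers -/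
theorem DI_padic {p : ℕ} [Fact p.Prime] {L : PadicAlgCl p → PadicAlgCl p} (hL : IsIwasawaLog p L)
    {k N : ℕ} (w : Fin k → Fin N → PadicAlgCl p)
    (hw : ∀ s i, ∃ α : PadicAlgCl p, α ≠ 0 ∧ IsAlgebraic ℚ α ∧ w s i = L α)
    (h : ∀ f g : Fin k → Fin N,
      LinearIndependent ℚ (fun s : {s // g s ≠ f s} => w s.1 (g s.1) - w s.1 (f s.1))) :
    DI (QbarP p) w := by
  apply DI_of_li
  intro f g
  refine hL.indep_of_indep _ (fun s => ?_) (h f g)
  obtain ⟨α, hα0, hα, h1⟩ := hw s.1 (g s.1)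
  obtain ⟨β, hβ0, hβ, h2⟩ := hw s.1 (f s.1)
  refine ⟨α * β⁻¹, mul_ne_zero hα0 (inv_ne_zero hβ0), hα.mul hβ.inv, ?_⟩
  rw [h1, h2, hL.mul _ _ hα0 (inv_ne_zero hβ0), hL.inv hβ0, sub_eq_add_neg]

/-- lists of logarithms of algebraic numbers -/
theorem DI_complex {k N : ℕ} (w : Fin k → Fin N → ℂ)
    (hw : ∀ s i, IsAlgebraic ℚ (Complex.exp (w s i)))
    (h : ∀ f g : Fin k → Fin N,
      LinearIndependent ℚ (fun s : {s // g s ≠ f s} => w s.1 (g s.1) - w s.1 (f s.1))) :
    DI (algebraicClosure ℚ ℂ) w := by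
  apply DI_of_li
  intro f g
  have h1 : ∀ s : {s // g s ≠ f s},
      IsAlgebraic ℚ (Complex.exp (w s.1 (g s.1) - w s.1 (f s.1))) := by
    intro s
    rw [sub_eq_add_neg, Complex.exp_add, Complex.exp_neg]
    exact (hw _ _).mul (hw _ _).inv
  rw [Fintype.linearIndependent_iff]
  intro c hc
  intro i
  have h2 := Pool.Agent.H297R2.baker _ h1 (h f g) (fun i => (c i : ℂ))
    (fun i => mem_algebraicClosure_iff.1 (c i).2) (by
      rw [← hc]
      refine Finset.sum_congr rfl fun i _ => ?_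
      rw [Algebra.smul_def]
      rfl) i
  exact Subtype.ext h2

end Pool.Agent.K7.H62.PA
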