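import Mathlib
import Pool.Agent.R351.SlpTup

/-!
# Computations with few additions: sets of computed elements
-/

set_option autoImplicit false

namespace Pool.Agent.K7.H62.PA

open Module Finset
open Pool.Agent.R351 (Cmp GoodT btm)

/-- all elements of `T` occur in a computation with `L` additions -/
def Reach {R ι : Type} (κ : Type) [Field κ] [CommRing R] [Algebra κ R] [Fintype ι] (β : ι → R)
    (L : ℕ) (T : Finset R) : Prop :=
  ∃ G : ℕ → R, Cmp κ β L G ∧ ∀ s ∈ T, ∃ l < L, G l = s

variable {κ R ι : Type} [Field κ] [CommRing R] [Algebra κ R] [Fintype ι] {β : ι → R} {L : ℕ}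
  {T : Finset R}

theorem reach_empty : Reach κ β 0 ∅ :=
  ⟨fun _ => 0, ⟨fun _ _ => 0, fun _ _ _ => 0, fun _ _ _ => 0, fun l hl => absurd hl (Nat.not_lt_zero _)⟩,
    fun s hs => absurd hs (Finset.notMem_empty _)⟩

theorem Reach.mono {T' : Finset R} (h : Reach κ β L T) (hT : T' ⊆ T) : Reach κ β L T' := by
  obtain ⟨G, hG, hs⟩ := h
  exact ⟨G, hG, fun s hs' => hs s (hT hs')⟩

/-- one more addition -/
theorem Reach.step [DecidableEq R] (h : Reach κ β L T) (c : Bool → κ) (e : Bool → ι → ℕ)
    (w : Bool → R → ℕ) :
    Reach κ β (L + 1)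
      (insert (∑ b : Bool, c b • ((∏ j, β j ^ e b j) * ∏ s ∈ T, s ^ w b s)) T) := by
  classical
  obtain ⟨G, ⟨c', e', u', hG⟩, hs⟩ := h
  choose! φ hφ1 hφ2 using hs
  set x : R := ∑ b : Bool, c b • ((∏ j, β j ^ e b j) * ∏ s ∈ T, s ^ w b s) with hx
  refine ⟨fun l => if l < L then G l else x, ⟨fun l b => if l < L then c' l b else c b,
    fun l b => if l < L then e' l b else e b,
    fun l b l' => if l < L then u' l b l' else ∑ s ∈ T.filter (fun s => φ s = l'), w b s, ?_⟩, ?_⟩
  · intro l hl
    by_cases hlL : l < L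
    · simp only [if_pos hlL]
      rw [hG l hlL]
      refine Finset.sum_congr rfl fun b _ => ?_
      congr 2
      refine Finset.prod_congr rfl fun l' hl' => ?_
      rw [if_pos (lt_trans (Finset.mem_range.1 hl') hlL)]
    · obtain rfl : l = L := by omega
      simp only [if_neg hlL]
      rw [hx]
      refine Finset.sum_congr rfl fun b _ => ?_
      congr 2
      have h1 : ∀ l' ∈ range l, (if l' < l then G l' else x) ^
          (∑ s ∈ T.filter (fun s => φ s = l'), w b s) =
          ∏ s ∈ T.filter (fun s => φ s = l'), s ^ w b s := by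
        intro l' hl'
        rw [if_pos (Finset.mem_range.1 hl'), ← Finset.prod_pow_eq_pow_sum]
        refine Finset.prod_congr rfl fun s hs' => ?_
        obtain ⟨hsT, hsφ⟩ := Finset.mem_filter.1 hs'
        rw [← hsφ, hφ2 s hsT]
      rw [Finset.prod_congr rfl h1]
      symm
      apply Finset.prod_fiberwise_of_maps_to
      intro s hsT
      exact Finset.mem_range.2 (hφ1 s hsT)
  · intro s hs'
    rcases Finset.mem_insert.1 hs' with h1 | h1
    · exact ⟨L, Nat.lt_succ_self L, by simp [h1]⟩
    · refine ⟨φ s, Nat.lt_succ_of_lt (hφ1 s h1), ?_⟩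
      dsimp only
      rw [if_pos (hφ1 s h1), hφ2 s h1]

/-- a constant -/
theorem Reach.const [DecidableEq R] (h : Reach κ β L T) (b : κ) :
    Reach κ β (L + 1) (insert (algebraMap κ R b) T) := by
  have h1 := h.step (fun s => if s then b else 0) (fun _ _ => 0) (fun _ _ => 0)
  have h2 : ∑ s : Bool, (if s then b else 0) • ((∏ j, β j ^ ((fun _ _ => 0 : Bool → ι → ℕ) s j)) *
      ∏ r ∈ T, r ^ ((fun _ _ => 0 : Bool → R → ℕ) s r)) = algebraMap κ R b := by
    rw [Fintype.sum_bool]
    simp [Algebra.algebraMap_eq_smul_one]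
  rwa [h2] at h1

/-- an affine form in the basic elements -/
theorem Reach.linear [DecidableEq R] (h : Reach κ β L T) (b : κ) (c : ι → κ) :
    ∀ J : Finset ι, Reach κ β (L + 1 + J.card)
      (insert (algebraMap κ R b + ∑ j ∈ J, c j • β j) T) := by
  classical
  intro J
  induction J using Finset.induction_on with
  | empty => simpa using h.const b
  | insert i J hi ih =>
    set y := algebraMap κ R b + ∑ j ∈ J, c j • β j with hy
    have h1 := ih.step (fun s => if s then c i else 1) (fun s j => if s then (if j = i then 1 else 0)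
      else 0) (fun s r => if s then 0 else (if r = y then 1 else 0))
    have h2 : ∑ s : Bool, (if s then c i else 1) •
        ((∏ j, β j ^ ((fun s j => if s then (if j = i then 1 else 0)
          else 0 : Bool → ι → ℕ) s j)) * ∏ r ∈ insert y T,
          r ^ ((fun s r => if s then 0 else (if r = y then 1 else 0) : Bool → R → ℕ) s r)) =
        algebraMap κ R b + ∑ j ∈ insert i J, c j • β j := by
      rw [Fintype.sum_bool, Finset.sum_insert hi]
      simp only [if_true, Bool.false_eq_true, if_false, pow_zero, Finset.prod_const_one, mul_one,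
        one_mul, one_smul, pow_ite, pow_one, Finset.prod_ite_eq', Finset.mem_univ,
        Finset.mem_insert_self]
      rw [hy]
      ring
    rw [h2] at h1
    rw [Finset.card_insert_of_notMem hi]
    refine (h1.mono ?_)
    exact Finset.insert_subset_insert _ (Finset.subset_insert _ _)

/-- several affine forms -/
theorem reach_forms [DecidableEq R] {M : ℕ} (b : Fin M → κ) (c : Fin M → ι → κ) :
    Reach κ β (M * (1 + Fintype.card ι))
      (univ.image fun i => algebraMap κ R (b i) + ∑ j, c i j • β j) := by
  classical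
  induction M with
  | zero => simpa using reach_empty (κ := κ) (β := β)
  | succ M ih =>
    have h1 := (ih (fun i => b i.castSucc) (fun i => c i.castSucc)).linear (b (Fin.last M))
      (c (Fin.last M)) univ
    have e1 : M * (1 + Fintype.card ι) + 1 + (univ : Finset ι).card =
        (M + 1) * (1 + Fintype.card ι) := by
      rw [Finset.card_univ]
      ring
    rw [e1] at h1
    refine h1.mono ?_
    intro s hs
    obtain ⟨i, -, rfl⟩ := Finset.mem_image.1 hs
    refine Fin.lastCases ?_ (fun i => ?_) i
    · exact Finset.mem_insert_self _ _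
    · exact Finset.mem_insert_of_mem (Finset.mem_image.2 ⟨i, Finset.mem_univ _, rfl⟩)

/-- good tuples are not zeros of computed elements -/
theorem Reach.good {C : Type} [Field C] [Algebra κ C] {g m L : ℕ} {t : Fin g → C} {y : Fin m → C}
    {T : Finset (MvPolynomial (Fin m) C)} (hy : GoodT κ t L y)
    (h : Reach κ (btm m t) L T) {s : MvPolynomial (Fin m) C} (hs : s ∈ T)
    (h0 : MvPolynomial.eval y s = 0) : s = 0 := by
  obtain ⟨G, hG, h1⟩ := h
  obtain ⟨l, hl, rfl⟩ := h1 s hs
  exact hy G hG l hl h0

end Pool.Agent.K7.H62.PA
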