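import Mathlib
import Pool.Agent.K7.H62.PA.Reach

/-!
# Equality of the values of polynomials computed with few additions
-/

set_option autoImplicit false

namespace Pool.Agent.K7.H62.PA

open Module Finset
open Pool.Agent.R351 (Cmp GoodT btm)

section

variable {κ R ι : Type} [Field κ] [CommRing R] [Algebra κ R] [Fintype ι] {β : ι → R}

/-- two computations, one after the other -/
theorem Reach.union [DecidableEq R] {L L' : ℕ} {T T' : Finset R} (h : Reach κ β L T)
    (h' : Reach κ β L' T') : Reach κ β (L + L') (T ∪ T') := by
  obtain ⟨G, ⟨c, e, u, hG⟩, hs⟩ := h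
  obtain ⟨G', ⟨c', e', u', hG'⟩, hs'⟩ := h'
  refine ⟨fun l => if l < L then G l else G' (l - L), ⟨fun l => if l < L then c l else c' (l - L),
    fun l => if l < L then e l else e' (l - L),
    fun l b l' => if l < L then u l b l' else (if l' < L then 0 else u' (l - L) b (l' - L)), ?_⟩, ?_⟩
  · intro l hl
    by_cases hlL : l < L
    · simp only [if_pos hlL]
      rw [hG l hlL]
      refine Finset.sum_congr rfl fun b _ => ?_
      congr 2
      refine Finset.prod_congr rfl fun l' hl' => ?_
      rw [if_pos (lt_trans (Finset.mem_range.1 hl') hlL)]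
    · obtain ⟨m, rfl⟩ : ∃ m, l = L + m := ⟨l - L, by omega⟩
      simp only [if_neg hlL, Nat.add_sub_cancel_left]
      rw [hG' m (by omega)]
      refine Finset.sum_congr rfl fun b _ => ?_
      congr 2
      rw [Finset.prod_range_add]
      have h1 : ∏ x ∈ range L, (if x < L then G x else G' (x - L)) ^
          (if x < L then 0 else u' m b (x - L)) = 1 := by
        refine Finset.prod_eq_one fun x hx => ?_
        rw [if_pos (Finset.mem_range.1 hx), if_pos (Finset.mem_range.1 hx), pow_zero]
      rw [h1, one_mul]
      refine Finset.prod_congr rfl fun x _ => ?_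
      rw [if_neg (by omega), if_neg (by omega), Nat.add_sub_cancel_left]
  · intro s hs2
    rcases Finset.mem_union.1 hs2 with h1 | h1
    · obtain ⟨l, hl, rfl⟩ := hs s h1
      exact ⟨l, by omega, by simp [hl]⟩
    · obtain ⟨l, hl, rfl⟩ := hs' s h1
      refine ⟨L + l, by omega, ?_⟩
      dsimp only
      rw [if_neg (by omega), Nat.add_sub_cancel_left]

/-- the difference of two computed elements -/
theorem Reach.sub [DecidableEq R] {L L' : ℕ} {P Q : R} (h : Reach κ β L {P})
    (h' : Reach κ β L' {Q}) : Reach κ β (L + L' + 1) {P - Q} := by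
  classical
  have h1 := (h.union h').step (fun s => if s then 1 else -1) (fun _ _ => 0)
    (fun s r => if s then (if r = P then 1 else 0) else (if r = Q then 1 else 0))
  refine h1.mono ?_
  rw [Finset.singleton_subset_iff, Finset.mem_insert]
  left
  rw [Fintype.sum_bool]
  have hP : P ∈ ({P} ∪ {Q} : Finset R) := by simp
  have hQ : Q ∈ ({P} ∪ {Q} : Finset R) := by simp
  simp only [if_true, Bool.false_eq_true, if_false, pow_zero, Finset.prod_const_one, one_mul,
    one_smul, pow_ite, pow_one, Finset.prod_ite_eq', if_pos hP, if_pos hQ, neg_smul]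
  ring

end

/-- At good tuples the values of polynomials computed with few additions are equal only if the
polynomials are equal. -/
theorem formal_eq {κ C : Type} [Field κ] [Field C] [Algebra κ C] {g m L : ℕ} {t : Fin g → C}
    {y : Fin m → C} (hy : GoodT κ t (L + L + 1) y) {P Q : MvPolynomial (Fin m) C}
    (hP : Reach κ (btm m t) L {P}) (hQ : Reach κ (btm m t) L {Q})
    (h : MvPolynomial.eval y P = MvPolynomial.eval y Q) : P = Q := by
  classical
  have h1 := Reach.good hy (hP.sub hQ) (Finset.mem_singleton_self _)
    (by rw [map_sub, h, sub_self])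
  exact sub_eq_zero.1 h1

end Pool.Agent.K7.H62.PA
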