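import Mathlib
import Pool.Agent.K7.H62.PA.Rnd

/-!
# Matrices with one arbitrary row over a free tuple
-/

set_option autoImplicit false

namespace Pool.Agent.K7.H62.PA

open Module Finset
open Pool.Agent.R350

theorem exists_rows {K m n : Type} [Field K] [Fintype m] [Fintype n] (A : Matrix m n K) (r : ℕ)
    (hr : A.rank = r) : ∃ ro : Fin r → m, LinearIndependent K (fun i => A.row (ro i)) := by
  rw [A.rank_eq_finrank_span_row] at hr
  subst hr
  obtain ⟨f, hf1, -, hf2⟩ := Submodule.exists_fun_fin_finrank_span_eq K (Set.range A.row)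
  choose ro hro using hf1
  refine ⟨ro, ?_⟩
  have h1 : (fun i => A.row (ro i)) = f := funext hro
  rw [h1]
  exact hf2

theorem exists_minor {K m n : Type} [Field K] [Fintype m] [Fintype n] (A : Matrix m n K) (r : ℕ)
    (hr : r ≤ A.rank) : ∃ (ro : Fin r → m) (co : Fin r → n), (A.submatrix ro co).det ≠ 0 := by
  obtain ⟨ro', hro'⟩ := exists_rows A _ rfl
  set ro : Fin r → m := fun i => ro' (Fin.castLE hr i) with hro
  have hroi : LinearIndependent K (fun i => A.row (ro i)) :=
    hro'.comp (Fin.castLE hr) (Fin.castLE_injective hr)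
  have hB : (A.submatrix ro id).rank = r := by
    have h := LinearIndependent.rank_matrix (M := A.submatrix ro id) hroi
    rwa [Fintype.card_fin] at h
  have hB' : (A.submatrix ro id).transpose.rank = r := by
    rw [Matrix.rank_transpose, hB]
  obtain ⟨co, hco⟩ := exists_rows _ r hB'
  refine ⟨ro, co, ?_⟩
  have h1 : LinearIndependent K (A.submatrix ro co).transpose.row := hco
  have h2 := Matrix.linearIndependent_rows_iff_isUnit.1 h1
  have h3 := (Matrix.isUnit_iff_isUnit_det _).1 h2
  rw [Matrix.det_transpose] at h3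
  exact h3.ne_zero

section

variable {κ : Type} [Field κ] {n : ℕ}

/-- the polynomial `a + ∑ b_i X_i` -/
noncomputable def aff (a : κ) (b : Fin n → κ) : MvPolynomial (Fin n) κ :=
  MvPolynomial.C a + ∑ i, MvPolynomial.C (b i) * MvPolynomial.X i

theorem degreeOf_aff (a : κ) (b : Fin n → κ) (i : Fin n) : (aff a b).degreeOf i ≤ 1 := by
  classical
  unfold aff
  refine (MvPolynomial.degreeOf_add_le _ _ _).trans (max_le ?_ ?_)
  · rw [MvPolynomial.degreeOf_C]; omega
  · refine (MvPolynomial.degreeOf_sum_le _ _ _).trans ?_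
    rw [Finset.sup_le_iff]
    intro j _
    refine (MvPolynomial.degreeOf_C_mul_le _ _ _).trans ?_
    rw [MvPolynomial.degreeOf_X]
    split_ifs <;> omega

theorem aeval_aff {B : Type} [Field B] [Algebra κ B] (x : Fin n → B) (a : κ) (b : Fin n → κ) :
    MvPolynomial.aeval x (aff a b) = a • (1 : B) + ∑ i, b i • x i := by
  unfold aff
  rw [map_add, map_sum, MvPolynomial.aeval_C, Algebra.algebraMap_eq_smul_one]
  congr 1
  refine Finset.sum_congr rfl fun i _ => ?_
  rw [map_mul, MvPolynomial.aeval_C, MvPolynomial.aeval_X, Algebra.smul_def]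

theorem degreeOf_det {d : ℕ} (A : Matrix (Fin d) (Fin d) (MvPolynomial (Fin n) κ)) (t : Fin n)
    (hA : ∀ i j, (A i j).degreeOf t ≤ 1) : A.det.degreeOf t ≤ d := by
  classical
  rw [Matrix.det_apply]
  refine (MvPolynomial.degreeOf_sum_le _ _ _).trans ?_
  rw [Finset.sup_le_iff]
  intro σ _
  have h1 : (∏ i, A (σ i) i).degreeOf t ≤ d := by
    refine (MvPolynomial.degreeOf_prod_le _ _ _).trans ?_
    refine (Finset.sum_le_sum fun i _ => hA (σ i) i).trans ?_
    simp
  rcases Int.units_eq_one_or (Equiv.Perm.sign σ) with h | h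
  · rw [h, one_smul]
    exact h1
  · rw [h, Units.neg_smul, one_smul]
    have : (-∏ i, A (σ i) i).degreeOf t = (∏ i, A (σ i) i).degreeOf t := by
      unfold MvPolynomial.degreeOf
      rw [MvPolynomial.degrees_neg]
    rw [this]
    exact h1

theorem degreeOf_map_le' {B : Type} [Field B] (f : κ →+* B) (P : MvPolynomial (Fin n) κ)
    (t : Fin n) : (MvPolynomial.map f P).degreeOf t ≤ P.degreeOf t := by
  unfold MvPolynomial.degreeOf
  exact @Multiset.count_le_of_le _ (Classical.decEq _) _ _ _ MvPolynomial.degrees_map_le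

end

/-- **A matrix with one arbitrary row, the other rows being affine forms of a free tuple.** -/
theorem FreeT.struct {κ A B : Type} [Field κ] [Field A] [Algebra κ A] [Field B] [Algebra κ B]
    {D n : ℕ} {L : Submodule κ A} {y : Fin n → A} (H : FreeT D L (Submodule.span κ {(1 : A)}) y)
    (h1L : (1 : A) ∈ L) (hyL : ∀ i, y i ∈ L) (d : ℕ) (hd : d ≤ D) (M : Matrix (Fin d) (Fin d) A)
    (i₀ : Fin d)
    (hM : ∀ i j, i ≠ i₀ → M i j ∈ Submodule.span κ (insert 1 (Set.range y)))
    (hM0 : ∀ j, M i₀ j ∈ L) (hdet : M.det = 0) (φ : A →ₗ[κ] B) (hφ : φ 1 = 1) :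
    (M.map φ).det = 0 := by
  classical
  set S := Submodule.span κ (insert (1 : A) (Set.range y)) with hS
  have hSL : S ≤ L := by
    rw [hS, Submodule.span_le]
    rintro x (rfl | ⟨i, rfl⟩)
    · exact h1L
    · exact hyL i
  have hrep : ∀ x ∈ S, ∃ (a : κ) (b : Fin n → κ), x = a • (1 : A) + ∑ i, b i • y i := by
    intro x hx
    rw [hS, Submodule.mem_span_insert] at hx
    obtain ⟨a, z, hz, rfl⟩ := hx
    obtain ⟨b, rfl⟩ := (Submodule.mem_span_range_iff_exists_fun κ).1 hz
    exact ⟨a, b, rfl⟩
  obtain ⟨R, hR⟩ := Submodule.exists_isCompl S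
  have hdec : ∀ j, ∃ s ∈ S, ∃ r ∈ R, s + r = M i₀ j := by
    intro j
    have : M i₀ j ∈ S ⊔ R := by rw [hR.sup_eq_top]; exact Submodule.mem_top
    exact Submodule.mem_sup.1 this
  choose s hs r hr hsr using hdec
  set R' := Submodule.span κ (Set.range r) with hR'
  have hR'R : R' ≤ R := by
    rw [hR', Submodule.span_le]
    rintro x ⟨j, rfl⟩
    exact hr j
  have hR'L : R' ≤ L := by
    rw [hR', Submodule.span_le]
    rintro x ⟨j, rfl⟩
    have : r j = M i₀ j - s j := by rw [← hsr j]; ring
    rw [this]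
    exact L.sub_mem (hM0 j) (hSL (hs j))
  have hfin : Module.Finite κ R' := Module.Finite.span_of_finite κ (Set.finite_range r)
  set e := finrank κ R' with he
  let bas : Basis (Fin e) κ R' := finBasis κ R'
  set l : Fin e → A := fun t => (bas t : A) with hl
  have hlL : ∀ t, l t ∈ L := fun t => hR'L (bas t).2
  have hlind : ∀ c : Fin e → κ, ∑ t, c t • l t ∈ S → ∀ t, c t = 0 := by
    intro c hc
    have h1 : ∑ t, c t • l t ∈ R := R.sum_mem fun t _ => R.smul_mem _ (hR'R (bas t).2)
    have h2 : ∑ t, c t • l t = 0 := by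
      have := hR.disjoint.le_bot ⟨hc, h1⟩
      simpa using this
    have h3 : ∑ t, c t • bas t = 0 := by
      apply Subtype.ext
      rw [Submodule.coe_sum, ZeroMemClass.coe_zero, ← h2]
      exact Finset.sum_congr rfl fun t _ => rfl
    exact Fintype.linearIndependent_iff.1 bas.linearIndependent c h3
  set c : Fin d → Fin e → κ := fun j t => bas.repr ⟨r j, Submodule.subset_span ⟨j, rfl⟩⟩ t with hc
  have hrl : ∀ j, r j = ∑ t, c j t • l t := by
    intro j
    have h1 := bas.sum_repr ⟨r j, Submodule.subset_span ⟨j, rfl⟩⟩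
    have h2 := congrArg (Subtype.val) h1
    rw [Submodule.coe_sum] at h2
    rw [hc, hl]
    exact h2.symm
  have hMrep : ∀ i j, ∃ (a : κ) (b : Fin n → κ),
      (if i = i₀ then s j else M i j) = a • (1 : A) + ∑ t, b t • y t := by
    intro i j
    apply hrep
    split_ifs with h
    · exact hs j
    · exact hM i j h
  choose a b hab using hMrep
  set A' : Matrix (Fin d) (Fin d) (MvPolynomial (Fin n) κ) :=
    Matrix.of fun i j => aff (a i j) (b i j) with hA'
  set P0 := A'.det with hP0
  set P : Fin e → MvPolynomial (Fin n) κ := fun t =>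
    ∑ j, MvPolynomial.C (c j t) * A'.adjugate j i₀ with hP
  -- the formula for the determinant
  have key : ∀ (B' : Type) [Field B'] [Algebra κ B'] (ψ : A →ₗ[κ] B'), ψ 1 = 1 →
      (M.map ψ).det = MvPolynomial.aeval (fun i => ψ (y i)) P0 +
        ∑ t, ψ (l t) * MvPolynomial.aeval (fun i => ψ (y i)) (P t) := by
    intro B' _ _ ψ hψ
    set E := MvPolynomial.aeval (R := κ) (fun i => ψ (y i)) with hE
    have e1 : ∀ i j, E (A' i j) = ψ (if i = i₀ then s j else M i j) := by
      intro i j
      rw [hab i j, map_add, map_smul, hψ, map_sum, hA', Matrix.of_apply, hE, aeval_aff]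
      congr 1
      exact Finset.sum_congr rfl fun t _ => by rw [map_smul]
    have e2 : ∀ j, (M.map ψ).adjugate j i₀ = E (A'.adjugate j i₀) := by
      intro j
      rw [Matrix.adjugate_apply, Matrix.adjugate_apply, AlgHom.map_det]
      congr 1
      ext i' j'
      rw [AlgHom.mapMatrix_apply, Matrix.map_apply]
      by_cases hi : i' = i₀
      · subst hi
        rw [Matrix.updateRow_self, Matrix.updateRow_self]
        by_cases hj : j' = j
        · subst hj
          rw [Pi.single_eq_same, Pi.single_eq_same, map_one]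
        · rw [Pi.single_eq_of_ne hj, Pi.single_eq_of_ne hj, map_zero]
      · rw [Matrix.updateRow_ne hi, Matrix.updateRow_ne hi, Matrix.map_apply, e1, if_neg hi]
    rw [Matrix.det_eq_sum_mul_adjugate_row _ i₀, hP0, Matrix.det_eq_sum_mul_adjugate_row _ i₀,
      map_sum]
    have e3 : ∑ t, ψ (l t) * E (P t) = ∑ j, (∑ t, c j t • ψ (l t)) * E (A'.adjugate j i₀) := by
      rw [hP]
      simp only [map_sum, map_mul, Finset.mul_sum, Finset.sum_mul]
      rw [Finset.sum_comm]
      refine Finset.sum_congr rfl fun j _ => Finset.sum_congr rfl fun t _ => ?_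
      have e4 : E (MvPolynomial.C (c j t)) = algebraMap κ B' (c j t) := MvPolynomial.aeval_C _ _
      rw [e4, Algebra.smul_def]
      ring
    rw [e3, ← Finset.sum_add_distrib]
    refine Finset.sum_congr rfl fun j _ => ?_
    rw [e2, map_mul, e1, if_pos rfl, ← add_mul, Matrix.map_apply, ← hsr j, map_add]
    congr 2
    rw [hrl j, map_sum]
    exact Finset.sum_congr rfl fun t _ => by rw [map_smul]
  have hA'd : ∀ i j t, (A' i j).degreeOf t ≤ 1 := fun i j t => degreeOf_aff _ _ _
  have hadj : ∀ j t, (A'.adjugate j i₀).degreeOf t ≤ d := by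
    intro j t
    rw [Matrix.adjugate_apply]
    refine degreeOf_det _ _ fun i' j' => ?_
    by_cases hi : i' = i₀
    · subst hi
      rw [Matrix.updateRow_self]
      by_cases hj : j' = j
      · subst hj
        rw [Pi.single_eq_same, MvPolynomial.degreeOf_one]
        omega
      · rw [Pi.single_eq_of_ne hj, MvPolynomial.degreeOf_zero]
        omega
    · rw [Matrix.updateRow_ne hi]
      exact hA'd _ _ _
  have hcoef : ∀ Q : MvPolynomial (Fin n) κ,
      CoefIn (Submodule.span κ {(1 : A)}) (MvPolynomial.map (algebraMap κ A) Q) := by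
    intro Q β
    rw [MvPolynomial.coeff_map, Algebra.algebraMap_eq_smul_one]
    exact Submodule.smul_mem _ _ (Submodule.mem_span_singleton_self _)
  have hev : ∀ Q : MvPolynomial (Fin n) κ, MvPolynomial.eval y (MvPolynomial.map (algebraMap κ A) Q) =
      MvPolynomial.aeval (fun i => (LinearMap.id : A →ₗ[κ] A) (y i)) Q := by
    intro Q
    rw [MvPolynomial.eval_map, MvPolynomial.aeval_def]
    rfl
  have hid := key A LinearMap.id rfl
  have hMid : M.map (LinearMap.id : A →ₗ[κ] A) = M := by
    ext i j
    rfl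
  rw [hMid, hdet] at hid
  have hz := FreeT.lin H h1L hyL l hlL (by
    intro c' hc'
    apply hlind c'
    rw [suppI_one, bot_sup_eq] at hc'
    exact hc') (MvPolynomial.map (algebraMap κ A) P0)
    (fun t => MvPolynomial.map (algebraMap κ A) (P t))
    (fun t => (degreeOf_map_le' _ _ _).trans ((degreeOf_det _ _ fun i j => hA'd i j t).trans hd))
    (fun t t' => (degreeOf_map_le' _ _ _).trans (by
      rw [hP]
      refine (MvPolynomial.degreeOf_sum_le _ _ _).trans ?_
      rw [Finset.sup_le_iff]
      intro j _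
      exact (MvPolynomial.degreeOf_C_mul_le _ _ _).trans ((hadj j t').trans hd)))
    (hcoef _) (fun t => hcoef _) (by
      rw [hev]
      rw [hid]
      congr 1
      refine Finset.sum_congr rfl fun t _ => ?_
      rw [hev]
      rfl)
  have hinj : Function.Injective (MvPolynomial.map (σ := Fin n) (algebraMap κ A)) :=
    MvPolynomial.map_injective _ (algebraMap κ A).injective
  have hP00 : P0 = 0 := hinj (by rw [hz.1, map_zero])
  have hPt0 : ∀ t, P t = 0 := fun t => hinj (by rw [hz.2 t, map_zero])
  rw [key B φ hφ, hP00, map_zero, zero_add]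
  refine Finset.sum_eq_zero fun t _ => ?_
  rw [hPt0 t, map_zero, mul_zero]

/-- the rank of a matrix with one arbitrary row -/
theorem FreeT.struct_rank {κ A B : Type} [Field κ] [Field A] [Algebra κ A] [Field B] [Algebra κ B]
    {D n : ℕ} {L : Submodule κ A} {y : Fin n → A} (H : FreeT D L (Submodule.span κ {(1 : A)}) y)
    (h1L : (1 : A) ∈ L) (hyL : ∀ i, y i ∈ L) (d e : ℕ) (M : Matrix (Fin d) (Fin e) A)
    (i₀ : Fin d)
    (hM : ∀ i j, i ≠ i₀ → M i j ∈ Submodule.span κ (insert 1 (Set.range y)))
    (hM0 : ∀ j, M i₀ j ∈ L) (φ : A →ₗ[κ] B) (hφ : φ 1 = 1) :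
    min D (M.map φ).rank ≤ M.rank := by
  classical
  have hSL : Submodule.span κ (insert (1 : A) (Set.range y)) ≤ L := by
    rw [Submodule.span_le]
    rintro x (rfl | ⟨i, rfl⟩)
    · exact h1L
    · exact hyL i
  obtain ⟨ro, co, h⟩ := exists_minor (M.map φ) (min D (M.map φ).rank) (min_le_right _ _)
  have hdet : (M.submatrix ro co).det ≠ 0 := by
    intro h0
    apply h
    have hinj : Function.Injective ro := by
      intro i j hij
      by_contra hne
      exact h (Matrix.det_zero_of_row_eq hne (by
        funext t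
        rw [Matrix.submatrix_apply, Matrix.submatrix_apply, hij]))
    have e1 : (M.map φ).submatrix ro co = (M.submatrix ro co).map φ := by
      ext i j
      rfl
    rw [e1]
    by_cases hex : ∃ i, ro i = i₀
    · obtain ⟨i, hi⟩ := hex
      exact FreeT.struct H h1L hyL _ (min_le_left _ _) (M.submatrix ro co) i
        (fun i' j' hne => hM _ _ (fun h3 => hne (hinj (h3.trans hi.symm))))
        (fun j => by rw [Matrix.submatrix_apply, hi]; exact hM0 _) h0 φ hφ
    · push Not at hex
      rcases Nat.eq_zero_or_pos (min D (M.map φ).rank) with hz | hz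
      · exfalso
        have : IsEmpty (Fin (min D (M.map φ).rank)) := by rw [hz]; infer_instance
        rw [Matrix.det_isEmpty] at h0
        exact one_ne_zero h0
      · exact FreeT.struct H h1L hyL _ (min_le_left _ _) (M.submatrix ro co) ⟨0, hz⟩
          (fun i' j' _ => hM _ _ (hex i'))
          (fun j => hSL (hM _ _ (hex _))) h0 φ hφ
  have h4 := Matrix.rank_of_det_ne_zero hdet
  rw [Fintype.card_fin] at h4
  calc min D (M.map φ).rank = _ := h4.symm
    _ ≤ _ := Matrix.rank_submatrix_le _ _ _

end Pool.Agent.K7.H62.PA
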