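import Mathlib
import Pool.Agent.K7.H62.PA.Struct
import Pool.Agent.R350.GN

/-!
# Relations which are linear in arbitrary elements follow from the linear relations
-/

set_option autoImplicit false

namespace Pool.Agent.K7.H62.PA

open Module Finset
open Pool.Agent.R350

/-- Over a free tuple `y` every relation `P(y, l) = 0` with coefficients in `κ`, which is linear in
arbitrary elements `l` of `L`, follows from the linear relations between `1`, `y` and `l`. -/
theorem FreeT.lin_maps {κ A B : Type} [Field κ] [Field A] [Algebra κ A] [Field B] [Algebra κ B]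
    {D n : ℕ} {L : Submodule κ A} {y : Fin n → A}
    (H : FreeT (D + 1) L (Submodule.span κ {(1 : A)}) y)
    (h1L : (1 : A) ∈ L) (hyL : ∀ i, y i ∈ L) {r : ℕ} (l : Fin r → A) (hl : ∀ j, l j ∈ L)
    (P : MvPolynomial (Fin n ⊕ Fin r) κ) (hD : ∀ i, P.degreeOf (Sum.inl i) ≤ D)
    (h1 : ∀ β ∈ P.support, ∑ j, β (Sum.inr j) ≤ 1)
    (h0 : MvPolynomial.aeval (Sum.elim y l) P = 0) (φ : A →ₗ[κ] B) (hφ : φ 1 = 1) :
    MvPolynomial.aeval (fun i => φ (Sum.elim y l i)) P = 0 := by
  classical
  obtain ⟨P0, Q, hP0, hQ, hPQ⟩ := linear_split D P hD h1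
  set S := Submodule.span κ (insert (1 : A) (Set.range y)) with hS
  have hSL : S ≤ L := by
    rw [hS, Submodule.span_le]
    rintro x (rfl | ⟨i, rfl⟩)
    · exact h1L
    · exact hyL i
  have hrep : ∀ x ∈ S, ∃ (a : κ) (b : Fin n → κ), x = a • (1 : A) + ∑ i, b i • y i := by
    intro x hx
    rw [hS, Submodule.mem_span_insert] at hx
    obtain ⟨a, z, hz, rfl⟩ := hx
    obtain ⟨b, rfl⟩ := (Submodule.mem_span_range_iff_exists_fun κ).1 hz
    exact ⟨a, b, rfl⟩
  obtain ⟨R, hR⟩ := Submodule.exists_isCompl S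
  have hdec : ∀ j, ∃ s ∈ S, ∃ x ∈ R, s + x = l j := by
    intro j
    have : l j ∈ S ⊔ R := by rw [hR.sup_eq_top]; exact Submodule.mem_top
    exact Submodule.mem_sup.1 this
  choose s hs x hx hsx using hdec
  set R' := Submodule.span κ (Set.range x) with hR'
  have hR'R : R' ≤ R := by
    rw [hR', Submodule.span_le]
    rintro z ⟨j, rfl⟩
    exact hx j
  have hR'L : R' ≤ L := by
    rw [hR', Submodule.span_le]
    rintro z ⟨j, rfl⟩
    have : x j = l j - s j := by rw [← hsx j]; ring
    rw [this]
    exact L.sub_mem (hl j) (hSL (hs j))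
  have hfin : Module.Finite κ R' := Module.Finite.span_of_finite κ (Set.finite_range x)
  set e := finrank κ R' with he
  let bas : Basis (Fin e) κ R' := finBasis κ R'
  set z : Fin e → A := fun t => (bas t : A) with hz
  have hzL : ∀ t, z t ∈ L := fun t => hR'L (bas t).2
  have hlind : ∀ c : Fin e → κ, ∑ t, c t • z t ∈ S → ∀ t, c t = 0 := by
    intro c hc
    have h1 : ∑ t, c t • z t ∈ R := R.sum_mem fun t _ => R.smul_mem _ (hR'R (bas t).2)
    have h2 : ∑ t, c t • z t = 0 := by
      have := hR.disjoint.le_bot ⟨hc, h1⟩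
      simpa using this
    have h3 : ∑ t, c t • bas t = 0 := by
      apply Subtype.ext
      rw [Submodule.coe_sum, ZeroMemClass.coe_zero, ← h2]
      exact Finset.sum_congr rfl fun t _ => rfl
    exact Fintype.linearIndependent_iff.1 bas.linearIndependent c h3
  set c : Fin r → Fin e → κ := fun j t => bas.repr ⟨x j, Submodule.subset_span ⟨j, rfl⟩⟩ t with hc
  have hxz : ∀ j, x j = ∑ t, c j t • z t := by
    intro j
    have h1 := bas.sum_repr ⟨x j, Submodule.subset_span ⟨j, rfl⟩⟩
    have h2 := congrArg (Subtype.val) h1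
    rw [Submodule.coe_sum] at h2
    rw [hc, hz]
    exact h2.symm
  have hsrep : ∀ j, ∃ (a : κ) (b : Fin n → κ), s j = a • (1 : A) + ∑ t, b t • y t :=
    fun j => hrep _ (hs j)
  choose a b hab using hsrep
  set P1 : MvPolynomial (Fin n) κ := P0 + ∑ j, aff (a j) (b j) * Q j with hP1
  set Q1 : Fin e → MvPolynomial (Fin n) κ := fun t => ∑ j, MvPolynomial.C (c j t) * Q j with hQ1
  have key : ∀ (B' : Type) [Field B'] [Algebra κ B'] (ψ : A →ₗ[κ] B'), ψ 1 = 1 →
      MvPolynomial.aeval (fun i => ψ (Sum.elim y l i)) P =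
        MvPolynomial.aeval (fun i => ψ (y i)) P1 +
        ∑ t, ψ (z t) * MvPolynomial.aeval (fun i => ψ (y i)) (Q1 t) := by
    intro B' _ _ ψ hψ
    set E := MvPolynomial.aeval (R := κ) (fun i => ψ (y i)) with hE
    have e0 : ∀ T : MvPolynomial (Fin n) κ, MvPolynomial.aeval (fun i => ψ (Sum.elim y l i))
        (MvPolynomial.rename Sum.inl T) = E T := by
      intro T
      rw [MvPolynomial.aeval_rename, hE]
      rfl
    have e1 : ∀ j, ψ (l j) = E (aff (a j) (b j)) + ∑ t, c j t • ψ (z t) := by
      intro j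
      rw [← hsx j, map_add, hxz j, map_sum, hE, aeval_aff, hab j, map_add, map_smul, hψ, map_sum]
      congr 1
      · congr 1
        exact Finset.sum_congr rfl fun t _ => by rw [map_smul]
      · exact Finset.sum_congr rfl fun t _ => by rw [map_smul]
    rw [hPQ, map_add, map_sum, e0, hP1, map_add, map_sum, add_assoc]
    congr 1
    have e3 : ∑ t, ψ (z t) * E (Q1 t) = ∑ j, (∑ t, c j t • ψ (z t)) * E (Q j) := by
      rw [hQ1]
      simp only [map_sum, map_mul, Finset.mul_sum, Finset.sum_mul]
      rw [Finset.sum_comm]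
      refine Finset.sum_congr rfl fun j _ => Finset.sum_congr rfl fun t _ => ?_
      have e4 : E (MvPolynomial.C (c j t)) = algebraMap κ B' (c j t) := MvPolynomial.aeval_C _ _
      rw [e4, Algebra.smul_def]
      ring
    rw [e3, ← Finset.sum_add_distrib]
    refine Finset.sum_congr rfl fun j _ => ?_
    rw [map_mul, map_mul, MvPolynomial.aeval_X, e0, Sum.elim_inr, e1, add_mul]
  have hcoef : ∀ T : MvPolynomial (Fin n) κ,
      CoefIn (Submodule.span κ {(1 : A)}) (MvPolynomial.map (algebraMap κ A) T) := by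
    intro T β
    rw [MvPolynomial.coeff_map, Algebra.algebraMap_eq_smul_one]
    exact Submodule.smul_mem _ _ (Submodule.mem_span_singleton_self _)
  have hev : ∀ T : MvPolynomial (Fin n) κ, MvPolynomial.eval y (MvPolynomial.map (algebraMap κ A) T) =
      MvPolynomial.aeval (fun i => (LinearMap.id : A →ₗ[κ] A) (y i)) T := by
    intro T
    rw [MvPolynomial.eval_map, MvPolynomial.aeval_def]
    rfl
  have hid := key A LinearMap.id rfl
  have hid0 : MvPolynomial.aeval (fun i => (LinearMap.id : A →ₗ[κ] A) (Sum.elim y l i)) P = 0 := h0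
  rw [hid0] at hid
  have hzz := FreeT.lin H h1L hyL z hzL (by
    intro c' hc'
    apply hlind c'
    rw [suppI_one, bot_sup_eq] at hc'
    exact hc') (MvPolynomial.map (algebraMap κ A) P1)
    (fun t => MvPolynomial.map (algebraMap κ A) (Q1 t))
    (fun i => (degreeOf_map_le' _ _ _).trans (by
      rw [hP1]
      refine (MvPolynomial.degreeOf_add_le _ _ _).trans (max_le ((hP0 i).trans (Nat.le_succ D)) ?_)
      refine (MvPolynomial.degreeOf_sum_le _ _ _).trans ?_
      rw [Finset.sup_le_iff]
      intro j _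
      refine (MvPolynomial.degreeOf_mul_le _ _ _).trans ?_
      have h2 := degreeOf_aff (a j) (b j) i
      have h3 := hQ j i
      omega))
    (fun t i => (degreeOf_map_le' _ _ _).trans (by
      rw [hQ1]
      refine (MvPolynomial.degreeOf_sum_le _ _ _).trans ?_
      rw [Finset.sup_le_iff]
      intro j _
      exact (MvPolynomial.degreeOf_C_mul_le _ _ _).trans ((hQ j i).trans (Nat.le_succ D))))
    (hcoef _) (fun t => hcoef _) (by
      rw [hev]
      rw [hid]
      congr 1
      refine Finset.sum_congr rfl fun t _ => ?_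
      rw [hev]
      rfl)
  have hinj : Function.Injective (MvPolynomial.map (σ := Fin n) (algebraMap κ A)) :=
    MvPolynomial.map_injective _ (algebraMap κ A).injective
  have hP10 : P1 = 0 := hinj (by rw [hzz.1, map_zero])
  have hQ10 : ∀ t, Q1 t = 0 := fun t => hinj (by rw [hzz.2 t, map_zero])
  rw [key B φ hφ, hP10, map_zero, zero_add]
  refine Finset.sum_eq_zero fun t _ => ?_
  rw [hQ10 t, map_zero, mul_zero]

end Pool.Agent.K7.H62.PA
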