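import Mathlib
import Pool.Agent.W254.PA.Transfer
import Pool.Agent.Y787.PInst

/-!
# Quadratic relations between pairs of elements of a space with the hyperplane property
-/

set_option autoImplicit false

namespace Pool.Agent.K7.H62.PA.QP

open Module Finset
open Pool.Agent.W254.PA (Hyp)

variable {κ C : Type} [Field κ] [CharZero κ] [Field C] [CharZero C] [Algebra κ C]

/-- a number `w` outside of `κ` multiplies at most two dimensions of `V` into `V` -/
theorem hyp_three {V : Submodule κ C} (hV : Hyp V) {w : C}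
    (hw : ∀ a : κ, w ≠ algebraMap κ C a) (v : Fin 3 → C) (hv : LinearIndependent κ v)
    (h1 : ∀ k, v k ∈ V) (h2 : ∀ k, w * v k ∈ V) : False := by
  have h := hV 2 3 ![w, -1] ![v, fun k => w * v k] ?_ ?_ ?_ ?_
  · omega
  · rw [LinearIndependent.pair_iff]
    intro s t hst
    have hs : s = 0 := by
      by_contra hs
      apply hw (t / s)
      have h3 : (algebraMap κ C s) * w + (algebraMap κ C t) * (-1) = 0 := by
        rw [← hst, Algebra.smul_def, Algebra.smul_def]
      have hs' : algebraMap κ C s ≠ 0 := (map_ne_zero _).2 hs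
      rw [map_div₀, eq_div_iff hs']
      linear_combination h3
    refine ⟨hs, ?_⟩
    rw [hs, zero_smul, zero_add, smul_neg, neg_eq_zero, Algebra.smul_def, mul_one] at hst
    exact (map_eq_zero _).1 hst
  · intro i j
    fin_cases i
    · exact h1 j
    · exact h2 j
  · intro j
    rw [Fin.sum_univ_two]
    simp only [Matrix.cons_val_zero, Matrix.cons_val_one]
    ring
  · rw [Fintype.linearIndependent_iff] at hv ⊢
    intro g hg i
    refine hv g ?_ i
    have h3 := congrFun hg 0
    simpa using h3

/-- a number `w` in `V` outside of `κ` cannot multiply a two dimensional space of combinations of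
the `l j` into `V` -/
theorem roy2 {V : Submodule κ C} (hV : Hyp V) (h1V : (1 : C) ∈ V) {N : ℕ} {l : Fin N → C}
    (hl : ∀ j, l j ∈ V) (hli : LinearIndependent κ (Fin.cons 1 l : Fin (N + 1) → C)) {w : C}
    (hw : ∀ a : κ, w ≠ algebraMap κ C a) (hwL : w ∈ V)
    (v : Fin 2 → Fin N → κ)
    (hv : LinearIndependent κ v) (h : ∀ k, w * ∑ j, (v k j) • l j ∈ V) : False := by
  refine hyp_three hV hw (Fin.cons 1 (fun k => ∑ j, (v k j) • l j) : Fin 3 → C) ?_ ?_ ?_
  · rw [Fintype.linearIndependent_iff] at hli hv ⊢
    intro c hc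
    rw [Fin.sum_univ_succ] at hc
    simp only [Fin.cons_zero, Fin.cons_succ] at hc
    have h1 := hli (Fin.cons (c 0) (fun j => ∑ k : Fin 2, c k.succ * v k j)) (by
      rw [Fin.sum_univ_succ]
      simp only [Fin.cons_zero, Fin.cons_succ]
      rw [← hc]
      congr 1
      simp only [Finset.sum_smul, Finset.smul_sum]
      rw [Finset.sum_comm]
      refine Finset.sum_congr rfl fun j _ => Finset.sum_congr rfl fun k _ => ?_
      rw [mul_smul])
    have h0 : c 0 = 0 := h1 0
    have h2 : ∀ j : Fin N, ∑ k : Fin 2, c k.succ * v k j = 0 := fun j => h1 j.succ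
    have h3 := hv (fun k => c k.succ) (by
      funext j
      simpa [Finset.sum_apply] using h2 j)
    intro i
    refine Fin.cases h0 (fun k => h3 k) i
  · intro k
    refine Fin.cases ?_ (fun k => ?_) k
    · exact h1V
    · rw [Fin.cons_succ]
      exact V.sum_mem fun j _ => V.smul_mem _ (hl j)
  · intro k
    refine Fin.cases ?_ (fun k => ?_) k
    · simpa using hwL
    · simpa using h k

/-- modulo `d` further numbers the kernel loses at most `d` dimensions -/
theorem ker_bound {V : Submodule κ C} {E : Type} [AddCommGroup E] [Module κ E]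
    [FiniteDimensional κ E] (φ : E →ₗ[κ] C) {d : ℕ} (γ : Fin d → C)
    (h : ∀ u, φ u ∈ V ⊔ Submodule.span κ (Set.range γ)) :
    finrank κ E ≤ finrank κ (LinearMap.ker (V.mkQ ∘ₗ φ)) + d := by
  have h1 := LinearMap.finrank_range_add_finrank_ker (V.mkQ ∘ₗ φ)
  have : FiniteDimensional κ (Submodule.span κ (Set.range γ)) :=
    FiniteDimensional.span_of_finite κ (Set.finite_range γ)
  have h2 : LinearMap.range (V.mkQ ∘ₗ φ) ≤ (Submodule.span κ (Set.range γ)).map V.mkQ := by
    rintro _ ⟨u, rfl⟩
    obtain ⟨a, ha, b, hb, hab⟩ := Submodule.mem_sup.mp (h u)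
    refine ⟨b, hb, ?_⟩
    rw [LinearMap.comp_apply, ← hab, map_add]
    have : V.mkQ a = 0 := by
      rw [Submodule.mkQ_apply, Submodule.Quotient.mk_eq_zero]
      exact ha
    rw [this, zero_add]
  have h3 : finrank κ ((Submodule.span κ (Set.range γ)).map V.mkQ) ≤ d := by
    refine (Submodule.finrank_map_le _ _).trans ?_
    refine (finrank_range_le_card γ).trans ?_
    simp
  have h4 := Submodule.finrank_mono h2
  omega

omit [CharZero C] in
/-- the double sum identity -/
theorem sum_identity {n : ℕ} (w u : Fin n → C) (A : Fin n → Fin n → C) (q : Fin n → C) :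
    ∑ i, ∑ j, w i * u j * (A i j * q i + A j i * q j) =
      ∑ k, q k * (w k * ∑ j, A k j * u j + u k * ∑ i, A k i * w i) := by
  have h1 : ∑ i, ∑ j, w i * u j * (A i j * q i + A j i * q j) =
      ∑ i, ∑ j, w i * u j * (A i j * q i) + ∑ i, ∑ j, w i * u j * (A j i * q j) := by
    rw [← Finset.sum_add_distrib]
    refine Finset.sum_congr rfl fun i _ => ?_
    rw [← Finset.sum_add_distrib]
    refine Finset.sum_congr rfl fun j _ => ?_
    ring
  rw [h1, Finset.sum_comm (f := fun i j => w i * u j * (A j i * q j)), ← Finset.sum_add_distrib]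
  refine Finset.sum_congr rfl fun k _ => ?_
  rw [mul_add, Finset.mul_sum, Finset.mul_sum, Finset.mul_sum, Finset.mul_sum]
  congr 1
  · refine Finset.sum_congr rfl fun j _ => ?_
    ring
  · refine Finset.sum_congr rfl fun j _ => ?_
    ring

/-- a number `w` in `V` outside of `κ` cannot multiply a `d + 2` dimensional space of combinations
of the `l j` into `V` plus a space of dimension `d` -/
theorem roy_space {V : Submodule κ C} (hV : Hyp V) (h1V : (1 : C) ∈ V) {N : ℕ} {l : Fin N → C}
    (hl : ∀ j, l j ∈ V) (hli : LinearIndependent κ (Fin.cons 1 l : Fin (N + 1) → C)) {w : C}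
    (hw : ∀ a : κ, w ≠ algebraMap κ C a) (hwL : w ∈ V)
    {E : Type} [AddCommGroup E] [Module κ E] [FiniteDimensional κ E]
    (ι : E →ₗ[κ] (Fin N → κ)) (hι : Function.Injective ι) {d : ℕ} (γ : Fin d → C)
    (hE : d + 2 ≤ finrank κ E)
    (h : ∀ u : E, w * ∑ j, (ι u j) • l j ∈ V ⊔ Submodule.span κ (Set.range γ)) : False := by
  let φ : E →ₗ[κ] C := (LinearMap.mulLeft κ w) ∘ₗ (Fintype.linearCombination κ l) ∘ₗ ι
  have hφ : ∀ u : E, φ u = w * ∑ j, (ι u j) • l j := by
    intro u
    show w * (Fintype.linearCombination κ l) (ι u) = _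
    rw [Fintype.linearCombination_apply]
  have hmem : ∀ u, φ u ∈ V ⊔ Submodule.span κ (Set.range γ) := by
    intro u
    rw [hφ]
    exact h u
  have hk := ker_bound φ γ hmem
  have hk2 : 2 ≤ finrank κ (LinearMap.ker (V.mkQ ∘ₗ φ)) := by omega
  obtain ⟨f, hf⟩ := exists_linearIndependent_of_le_finrank hk2
  let g : Fin 2 → E := fun k => ((f k : LinearMap.ker (V.mkQ ∘ₗ φ)) : E)
  have hg : LinearIndependent κ g :=
    hf.map' (LinearMap.ker (V.mkQ ∘ₗ φ)).subtype (Submodule.ker_subtype _)
  have hv : LinearIndependent κ (fun k => ι (g k)) :=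
    hg.map' ι (LinearMap.ker_eq_bot.mpr hι)
  refine roy2 hV h1V hl hli hw hwL (fun k => ι (g k)) hv ?_
  intro k
  have h1 := LinearMap.mem_ker.mp (f k).2
  rw [LinearMap.comp_apply, Submodule.mkQ_apply, Submodule.Quotient.mk_eq_zero, hφ] at h1
  exact h1

/-- **Main theorem on pairs.** -/
theorem pairs {V : Submodule κ C} (hV : Hyp V) (h1V : (1 : C) ∈ V) (d : ℕ)
    (l : Fin (2 * d + 5) → C) (hl : ∀ j, l j ∈ V)
    (hli : LinearIndependent κ (Fin.cons 1 l : Fin (2 * d + 5 + 1) → C)) (γ : Fin d → C) :
    ∃ i j : Fin (2 * d + 5), i ≠ j ∧ i.val < d + 3 ∧ ∀ a b : κ,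
      l i * l j - (a • l i ^ 2 + b • l j ^ 2) ∉
        V ⊔ Submodule.span κ (Set.range γ) := by
  classical
  by_contra hcon
  push Not at hcon
  set L : Submodule κ C := V ⊔ Submodule.span κ (Set.range γ) with hL
  have hex : ∀ i j : Fin (2 * d + 5), ∃ a b : κ, i ≠ j → i.val < d + 3 →
      l i * l j - (a • l i ^ 2 + b • l j ^ 2) ∈ L := by
    intro i j
    by_cases h : i ≠ j ∧ i.val < d + 3
    · obtain ⟨a, b, hab⟩ := hcon i j h.1 h.2
      exact ⟨a, b, fun _ _ => hab⟩
    · exact ⟨0, 0, fun h1 h2 => absurd ⟨h1, h2⟩ h⟩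
  choose a b hab using hex
  let A : Fin (2 * d + 5) → Fin (2 * d + 5) → κ := fun i j =>
    if i = j then 1 / 2 else if i < j then a i j else b j i
  have key : ∀ i j : Fin (2 * d + 5), i.val < d + 3 →
      l i * l j - (A i j • l i ^ 2 + A j i • l j ^ 2) ∈ L := by
    intro i j hi
    rcases lt_trichotomy i j with h | h | h
    · have e1 : A i j = a i j := by
        simp only [A, if_neg h.ne, if_pos h]
      have e2 : A j i = b i j := by
        simp only [A, if_neg h.ne', if_neg (not_lt_of_gt h)]
      rw [e1, e2]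
      exact hab i j h.ne hi
    · subst h
      have e1 : A i i = 1 / 2 := by simp only [A, if_true]
      have : l i * l i - (A i i • l i ^ 2 + A i i • l i ^ 2) = 0 := by
        rw [e1, ← add_smul, add_halves, one_smul]
        ring
      rw [this]
      exact L.zero_mem
    · have hj : j.val < d + 3 := lt_trans (Fin.lt_def.mp h) hi
      have e1 : A i j = b j i := by
        simp only [A, if_neg h.ne', if_neg (not_lt_of_gt h)]
      have e2 : A j i = a j i := by
        simp only [A, if_neg h.ne, if_pos h]
      rw [e1, e2]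
      have := hab j i h.ne hj
      have e3 : l i * l j - (b j i • l i ^ 2 + a j i • l j ^ 2) =
        l j * l i - (a j i • l j ^ 2 + b j i • l i ^ 2) := by
        rw [mul_comm (l i), add_comm]
      rw [e3]
      exact this
  -- the multiplier
  let up : Fin (d + 2) → Fin (2 * d + 5) := fun m => ⟨d + 3 + m.val, by omega⟩
  let T : (Fin (2 * d + 5) → κ) →ₗ[κ] (Fin (d + 2) → κ) × (Fin (d + 2) → κ) :=
    { toFun := fun w => (fun m => w (up m), fun m => ∑ i, A (up m) i * w i)
      map_add' := by
        intro w w'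
        refine Prod.ext (funext fun m => rfl) (funext fun m => ?_)
        simp only [Pi.add_apply, mul_add, Finset.sum_add_distrib, Prod.snd_add]
      map_smul' := by
        intro c w
        refine Prod.ext (funext fun m => rfl) (funext fun m => ?_)
        simp only [Pi.smul_apply, smul_eq_mul, RingHom.id_apply, Prod.smul_snd, Finset.mul_sum]
        refine Finset.sum_congr rfl fun i _ => ?_
        ring }
  have hT : LinearMap.ker T ≠ ⊥ := by
    apply LinearMap.ker_ne_bot_of_finrank_lt
    rw [Module.finrank_prod, Module.finrank_fin_fun, Module.finrank_fin_fun]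
    omega
  obtain ⟨w, hwT, hw0⟩ := (Submodule.ne_bot_iff _).mp hT
  rw [LinearMap.mem_ker] at hwT
  have hw1 : ∀ k : Fin (2 * d + 5), ¬ k.val < d + 3 → w k = 0 ∧ ∑ i, A k i * w i = 0 := by
    intro k hk
    have hk2 : k.val - (d + 3) < d + 2 := by
      have := k.2
      omega
    have hup : up ⟨k.val - (d + 3), hk2⟩ = k := by
      apply Fin.ext
      show d + 3 + (k.val - (d + 3)) = k.val
      omega
    have h1 := congrFun (congrArg Prod.fst hwT) ⟨k.val - (d + 3), hk2⟩
    have h2 := congrFun (congrArg Prod.snd hwT) ⟨k.val - (d + 3), hk2⟩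
    change w (up _) = 0 at h1
    change ∑ i, A (up _) i * w i = 0 at h2
    rw [hup] at h1 h2
    exact ⟨h1, h2⟩
  -- the partners
  let low : Fin (d + 3) → Fin (2 * d + 5) := fun m => ⟨m.val, by omega⟩
  let S : (Fin (2 * d + 5) → κ) →ₗ[κ] (Fin (d + 3) → κ) :=
    { toFun := fun u => fun m => w (low m) * ∑ j, A (low m) j * u j +
        u (low m) * ∑ i, A (low m) i * w i
      map_add' := by
        intro u u'
        funext m
        simp only [Pi.add_apply, mul_add, Finset.sum_add_distrib]
        ring
      map_smul' := by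
        intro c u
        funext m
        simp only [Pi.smul_apply, smul_eq_mul, RingHom.id_apply]
        have : ∑ j, A (low m) j * (c * u j) = c * ∑ j, A (low m) j * u j := by
          rw [Finset.mul_sum]
          refine Finset.sum_congr rfl fun i _ => ?_
          ring
        rw [this]
        ring }
  have hS : d + 2 ≤ finrank κ (LinearMap.ker S) := by
    have h1 := LinearMap.finrank_range_add_finrank_ker S
    have h2 := Submodule.finrank_le (LinearMap.range S)
    rw [Module.finrank_fin_fun] at h1 h2
    omega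
  set W : C := ∑ i, w i • l i with hW
  have hWL : W ∈ V := V.sum_mem fun i _ => V.smul_mem _ (hl i)
  have hWt : ∀ a : κ, W ≠ algebraMap κ C a := by
    intro a ha
    apply hw0
    have h1 := Fintype.linearIndependent_iff.1 hli (Fin.cons (-a) w) (by
      rw [Fin.sum_univ_succ]
      simp only [Fin.cons_zero, Fin.cons_succ]
      rw [← hW, ha, Algebra.smul_def, mul_one, map_neg, neg_add_cancel])
    funext i
    exact h1 i.succ
  refine roy_space hV h1V hl hli hWt hWL (E := LinearMap.ker S) (LinearMap.ker S).subtype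
    (Submodule.injective_subtype _) γ hS ?_
  · intro u
    rw [Submodule.subtype_apply]
    have hu : ∀ k : Fin (2 * d + 5), k.val < d + 3 →
        w k * ∑ j, A k j * (u : Fin (2 * d + 5) → κ) j +
          (u : Fin (2 * d + 5) → κ) k * ∑ i, A k i * w i = 0 := by
      intro k hk
      have h1 := LinearMap.mem_ker.mp u.2
      exact congrFun h1 ⟨k.val, hk⟩
    set v : Fin (2 * d + 5) → κ := (u : Fin (2 * d + 5) → κ) with hv
    have hall : ∀ k, w k * ∑ j, A k j * v j + v k * ∑ i, A k i * w i = 0 := by
      intro k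
      by_cases hk : k.val < d + 3
      · exact hu k hk
      · obtain ⟨h1, h2⟩ := hw1 k hk
        rw [h1, h2]; ring
    set α := algebraMap κ C with hα
    have hzero := sum_identity (fun i => α (w i)) (fun j => α (v j))
      (fun i j => α (A i j)) (fun k => l k ^ 2)
    have hr : ∑ k, l k ^ 2 * (α (w k) * ∑ j, α (A k j) * α (v j) +
        α (v k) * ∑ i, α (A k i) * α (w i)) = 0 := by
      apply Finset.sum_eq_zero
      intro k _
      have := congrArg (fun z : κ => α z) (hall k)
      simp only [map_add, map_mul, map_sum, map_zero] at this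
      rw [this, mul_zero]
    rw [hr] at hzero
    have e : W * ∑ j, v j • l j = ∑ i, ∑ j, (w i * v j) •
        (l i * l j - (A i j • l i ^ 2 + A j i • l j ^ 2)) := by
      have e1 : ∑ i, ∑ j, (w i * v j) •
        (l i * l j - (A i j • l i ^ 2 + A j i • l j ^ 2)) =
        ∑ i, ∑ j, w i • l i * (v j • l j) -
        ∑ i, ∑ j, α (w i) * α (v j) * (α (A i j) * l i ^ 2 + α (A j i) * l j ^ 2) := by
        rw [← Finset.sum_sub_distrib]
        refine Finset.sum_congr rfl fun i _ => ?_
        rw [← Finset.sum_sub_distrib]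
        refine Finset.sum_congr rfl fun j _ => ?_
        simp only [Algebra.smul_def, map_mul]
        ring
      rw [e1, hzero, sub_zero, hW, Finset.sum_mul_sum]
    rw [e]
    apply Submodule.sum_mem
    intro i _
    apply Submodule.sum_mem
    intro j _
    by_cases hi : i.val < d + 3
    · exact L.smul_mem (w i * v j) (key i j hi)
    · rw [(hw1 i hi).1, zero_mul, zero_smul]
      exact L.zero_mem

end Pool.Agent.K7.H62.PA.QP
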