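import Mathlib
import Pool.Agent.K7.H62.PA.Rnd
import Pool.Agent.R351.SlpTup

/-!
# Sums with one term from each of many lists: computations with few additions
-/

set_option autoImplicit false

namespace Pool.Agent.K7.H62.PA

open Module Finset
open Pool.Agent.R351 (InfTrd Good1 GoodT cube_good goodT_cons goodT_zero)

/-- One sum. -/
theorem box_slp1 (g L : ℕ) : ∃ (k₀ C₀ : ℕ) (δ : ℝ), 0 < δ ∧ 1 ≤ k₀ ∧ ∀ q ≥ k₀,
    ∀ (κ C : Type) [Field κ] [IsAlgClosed κ] [CharZero κ] [Field C] [CharZero C] [Algebra κ C],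
    InfTrd κ C → ∀ (t : Fin g → C) (z : C) (N : ℕ) (w : Fin q → Fin N → C), DI κ w →
    ∀ B : Finset (Fin q → Fin N), (∀ f ∈ B, ¬ Good1 κ t L (z + csum w f)) →
    (B.card : ℝ) ≤ C₀ * (N : ℝ) ^ ((q : ℝ) - δ * q) := by
  classical
  obtain ⟨R, hR⟩ := cube_good g L
  obtain ⟨k₀, C₀, δ, hδ, hk₀, h⟩ := box_count R
  refine ⟨k₀, C₀, δ, hδ, hk₀, fun q hq κ C _ _ _ _ _ _ hinf t z N w hDI B hB => ?_⟩
  refine h q hq N (fun f => ¬ Good1 κ t L (z + csum w f)) ?_ B hB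
  intro p u hu hd
  obtain ⟨S, hS⟩ := hR κ C hinf t (z + csum w p) (fun i => csum w (u i) - csum w p)
    (hDI.dirs hu hd)
  refine ⟨S, ?_⟩
  rw [csum_vertex w hd, ← add_assoc]
  exact fun h8 => h8 hS

/-- **Tuples of sums.** -/
theorem box_slp (L n : ℕ) : ∀ g : ℕ, ∃ (k₀ C₀ : ℕ) (δ : ℝ), 0 < δ ∧ 1 ≤ k₀ ∧ ∀ q ≥ k₀,
    ∀ (κ C : Type) [Field κ] [IsAlgClosed κ] [CharZero κ] [Field C] [CharZero C] [Algebra κ C],
    InfTrd κ C → ∀ (t : Fin g → C) (z : Fin n → C) (N : ℕ) (w : Fin n → Fin q → Fin N → C),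
    (∀ a, DI κ (w a)) → ∀ B : Finset (Fin n → Fin q → Fin N),
    (∀ f ∈ B, ¬ GoodT κ t L (fun a => z a + csum (w a) (f a))) →
    (B.card : ℝ) ≤ C₀ * (N : ℝ) ^ ((n * q : ℝ) - δ * q) := by
  classical
  induction n with
  | zero =>
    intro g
    refine ⟨1, 0, 1, one_pos, le_rfl, fun q _ κ C _ _ _ _ _ _ _ t z N w _ B hB => ?_⟩
    have : B = ∅ := by
      rw [Finset.eq_empty_iff_forall_notMem]
      intro a ha
      exact hB a ha (goodT_zero _ _)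
    rw [this]
    simp
  | succ n ih =>
    intro g
    obtain ⟨k₁, C₁, δ₁, hδ₁, hk₁, h₁⟩ := box_slp1 g L
    obtain ⟨k₂, C₂, δ₂, hδ₂, hk₂, h₂⟩ := ih (g + 1)
    refine ⟨max k₁ k₂, C₁ + C₂, min δ₁ δ₂, lt_min hδ₁ hδ₂, hk₁.trans (le_max_left _ _),
      fun q hq κ C _ _ _ _ _ _ hinf t z N w hDI B hB => ?_⟩
    have hinfκ : Infinite κ := IsAlgClosed.instInfinite
    have hq1 : k₁ ≤ q := (le_max_left _ _).trans hq
    have hq2 : k₂ ≤ q := (le_max_right _ _).trans hq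
    refine count_box N q n (hk₁.trans hq1) C₁ C₂ δ₁ δ₂
      (fun f => ¬ GoodT κ t L (fun a => z a + csum (w a) (f a)))
      (univ.filter fun f : Fin q → Fin N => ¬ Good1 κ t L (z 0 + csum (w 0) f))
      (h₁ q hq1 κ C hinf t (z 0) N (w 0) (hDI 0) _ (fun P hP => (Finset.mem_filter.1 hP).2))
      ?_ B hB
    intro p hp B' hB'
    have hp' : Good1 κ t L (z 0 + csum (w 0) p) := by
      by_contra h
      exact hp (Finset.mem_filter.2 ⟨Finset.mem_univ _, h⟩)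
    refine h₂ q hq2 κ C hinf (Fin.cons (z 0 + csum (w 0) p) t : Fin (g + 1) → C)
      (fun a => z a.succ) N (fun a => w a.succ) (fun a => hDI _) B' ?_
    intro f hf hgood
    apply hB' f hf
    rw [cons_csum]
    exact goodT_cons hp' hgood

end Pool.Agent.K7.H62.PA
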